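import Pool.Agent.W_MP_3ad462_an.Core

open scoped ENNReal
open Topology Filter

namespace Pool.Agent.W_MP_3ad462_an

/-- Left multiplication as a homomorphism to the homeomorphism group. -/
noncomputable def mulLeftHom : Circle →* (Circle ≃ₜ Circle) where
  toFun c := Homeomorph.mulLeft c
  map_one' := by ext z; simp
  map_mul' a b := by
    ext z
    change ((a * b * z : Circle) : ℂ) = ((a * (b * z) : Circle) : ℂ)
    rw [mul_assoc]

theorem rotation_zpow (θ : ℝ) (n : ℤ) (z : Circle) :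
    (rotation θ ^ n) z = Circle.exp (2 * Real.pi * θ) ^ n * z := by
  have h1 : rotation θ = mulLeftHom (Circle.exp (2 * Real.pi * θ)) := rfl
  rw [h1, ← map_zpow]
  rfl

theorem exp_two_pi' : Circle.exp (2 * Real.pi) = 1 := by
  ext
  simp

theorem denseRange_zpow {θ : ℝ} (hθ : Irrational θ) :
    DenseRange (fun n : ℤ => Circle.exp (2 * Real.pi * θ) ^ n) := by
  have h1 : Dense (AddSubgroup.closure {2 * Real.pi * θ, 2 * Real.pi} : Set ℝ) := by
    rw [dense_addSubgroupClosure_pair_iff]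
    have : 2 * Real.pi * θ / (2 * Real.pi) = θ := by
      field_simp
    rwa [this]
  have hsurj : Function.Surjective Circle.exp := fun z => ⟨_, Circle.exp_arg z⟩
  have h2 := hsurj.denseRange.dense_image Circle.exp.continuous h1
  refine h2.mono ?_
  rintro _ ⟨x, hx, rfl⟩
  obtain ⟨m, n, rfl⟩ := AddSubgroup.mem_closure_pair.mp hx
  refine ⟨m, ?_⟩
  simp only
  rw [Circle.exp_add, Circle.exp_zsmul, Circle.exp_zsmul, exp_two_pi', one_zpow, mul_one]

theorem zpow_ne_one {θ : ℝ} (hθ : Irrational θ) {n : ℤ} (hn : n ≠ 0) :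
    Circle.exp (2 * Real.pi * θ) ^ n ≠ 1 := by
  intro H
  rw [← Circle.exp_zsmul] at H
  have h2 : Complex.exp (((n • (2 * Real.pi * θ) : ℝ) : ℂ) * Complex.I) = 1 := by
    rw [← Circle.coe_exp, H]; rfl
  rw [Complex.exp_eq_one_iff] at h2
  obtain ⟨m, hm⟩ := h2
  have h3 : ((n • (2 * Real.pi * θ) : ℝ) : ℂ) = m * (2 * Real.pi) := by
    have : ((n • (2 * Real.pi * θ) : ℝ) : ℂ) * Complex.I = (m * (2 * Real.pi)) * Complex.I := by
      rw [hm]; ring
    exact mul_right_cancel₀ Complex.I_ne_zero this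
  have h4 : (n : ℝ) * (2 * Real.pi * θ) = m * (2 * Real.pi) := by
    rw [zsmul_eq_mul] at h3
    exact_mod_cast h3
  have h5 : (n : ℝ) * θ = m := by
    have hpi : (2 * Real.pi) ≠ 0 := by positivity
    have : ((n : ℝ) * θ) * (2 * Real.pi) = m * (2 * Real.pi) := by linarith
    exact mul_right_cancel₀ hpi this
  apply hθ
  refine ⟨(m : ℚ) / n, ?_⟩
  have hn' : (n : ℝ) ≠ 0 := by exact_mod_cast hn
  push_cast
  rw [← h5]
  field_simp

theorem visits {c : Circle} (hc : DenseRange (fun n : ℤ => c ^ n)) {U : Set Circle}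
    (hU : IsOpen U) (hUne : U.Nonempty) (x : Circle) (K : ℤ) : ∃ k ≥ K, c ^ k * x ∈ U := by
  have hc' : DenseRange (fun n : ℕ => c ^ n) := denseRange_zpow_iff_pow.mp hc
  obtain ⟨n, hn⟩ := hc'.exists_mem_open
    (s := (fun z => c ^ K * z * x) ⁻¹' U)
    (hU.preimage (by fun_prop)) (by
      obtain ⟨u, hu⟩ := hUne
      refine ⟨(c ^ K)⁻¹ * u * x⁻¹, ?_⟩
      simp only [Set.mem_preimage]
      have : c ^ K * ((c ^ K)⁻¹ * u * x⁻¹) * x = u := by group
      rw [this]; exact hu)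
  refine ⟨K + n, by omega, ?_⟩
  rw [zpow_add, zpow_natCast]
  exact hn

theorem goodDyn_rotation {θ : ℝ} (hθ : Irrational θ) : GoodDyn (rotation θ) where
  free x n hn := by
    rw [rotation_zpow]
    intro H
    exact zpow_ne_one hθ hn (mul_eq_right.mp H)
  fwd U hU hUne x K := by
    obtain ⟨k, hk, hkU⟩ := visits (denseRange_zpow hθ) hU hUne x K
    exact ⟨k, hk, by rw [rotation_zpow]; exact hkU⟩
  bwd U hU hUne x K := by
    have hc : DenseRange (fun n : ℤ => (Circle.exp (2 * Real.pi * θ))⁻¹ ^ n) := by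
      have h1 := (denseRange_zpow hθ)
      refine h1.mono ?_
      rintro _ ⟨n, rfl⟩
      refine ⟨-n, ?_⟩
      simp
    obtain ⟨k, hk, hkU⟩ := visits hc hU hUne x K
    refine ⟨k, hk, ?_⟩
    rw [rotation_zpow, zpow_neg, ← inv_zpow]
    exact hkU

end Pool.Agent.W_MP_3ad462_an
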