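import Pool.Agent.W_MP_3ad462_an.Dich

open scoped ENNReal NNReal ComplexConjugate
open Topology

namespace Pool.Agent.W_MP_3ad462_an

variable {X : Type*} [TopologicalSpace X] {h : X ≃ₜ X}

/-- The adjoint: `(f uⁿ)* = u⁻ⁿ f̄`. -/
noncomputable def adj (a : TwConv h) : TwConv h :=
  a.sum fun m f => S h (-(m.toAdd)) (alphaPow h (-(m.toAdd)) (star (show C(X, ℂ) from f)))

theorem adj_S (m : ℤ) (f : C(X, ℂ)) : adj (S h m f) = S h (-m) (alphaPow h (-m) (star f)) := by
  unfold adj S
  rw [SkewMonoidAlgebra.sum_single_index]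
  · rfl
  · have : alphaPow h (-m) (star (0 : C(X, ℂ))) = 0 := by ext x; simp
    change SkewMonoidAlgebra.single _ (alphaPow h (-m) (star (0 : C(X, ℂ)))) = _
    rw [this]
    exact SkewMonoidAlgebra.single_zero _

theorem adj_add (a b : TwConv h) : adj (a + b) = adj a + adj b := by
  unfold adj
  refine SkewMonoidAlgebra.sum_add_index' ?_ ?_
  · intro m
    have : alphaPow h (-m.toAdd) (star (0 : C(X, ℂ))) = 0 := by ext x; simp
    change S h _ (alphaPow h (-m.toAdd) (star (0 : C(X, ℂ)))) = 0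
    rw [this, S_zero]
  · intro m f g
    change S h _ (alphaPow h (-m.toAdd) (star ((show C(X, ℂ) from f) + (show C(X, ℂ) from g)))) = _
    rw [← S_add]
    congr 1
    ext x
    simp

theorem adj_zero : adj (0 : TwConv h) = 0 := by
  have := adj_S (h := h) 0 0
  rw [S_zero] at this
  rw [this]
  have : alphaPow h (-0) (star (0 : C(X, ℂ))) = 0 := by ext x; simp
  rw [this, S_zero]

theorem adj_sum {ι : Type*} (s : Finset ι) (f : ι → TwConv h) :
    adj (∑ i ∈ s, f i) = ∑ i ∈ s, adj (f i) := by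
  classical
  induction s using Finset.induction_on with
  | empty => simp [adj_zero]
  | insert i s hi ih => rw [Finset.sum_insert hi, Finset.sum_insert hi, adj_add, ih]

theorem adj_mul (a b : TwConv h) : adj (a * b) = adj b * adj a := by
  obtain ⟨N, hN⟩ := exists_band a
  obtain ⟨M, hM⟩ := exists_band b
  rw [eq_sum_S hN, eq_sum_S hM, tw_sum_mul_sum, adj_sum, adj_sum, adj_sum,
    tw_sum_mul_sum, Finset.sum_comm]
  rw [Finset.sum_comm]
  simp only [adj_sum]
  rw [Finset.sum_comm]
  refine Finset.sum_congr rfl fun n _ => Finset.sum_congr rfl fun m _ => ?_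
  rw [S_mul_S, adj_S, adj_S, adj_S, S_mul_S]
  have e1 : -(m + n) = -n + -m := by ring
  rw [e1]
  congr 1
  ext x
  simp only [alphaPow_apply, ContinuousMap.star_apply, ContinuousMap.mul_apply, star_mul', neg_neg]
  rw [← hpow_add, ← hpow_add]
  have e2 : -(-n + -m) = m + n := by ring
  have e3 : -m + (m + n) = n := by ring
  rw [e2, e3, mul_comm]

theorem adj_one : adj (1 : TwConv h) = 1 := by
  rw [← S_zero_one, adj_S]
  have : alphaPow h (-0) (star (1 : C(X, ℂ))) = 1 := by ext x; simp
  rw [this]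
  rfl

theorem adj_adj (a : TwConv h) : adj (adj a) = a := by
  obtain ⟨N, hN⟩ := exists_band a
  conv_rhs => rw [eq_sum_S hN]
  conv_lhs => rw [eq_sum_S hN]
  rw [adj_sum, adj_sum]
  refine Finset.sum_congr rfl fun n _ => ?_
  rw [adj_S, adj_S, neg_neg]
  congr 1
  ext x
  simp only [alphaPow_apply, ContinuousMap.star_apply, star_star, neg_neg]
  rw [← hpow_add]
  simp

theorem adj_sub (a b : TwConv h) : adj (a - b) = adj a - adj b := by
  have h1 : adj (a - b) + adj b = adj a := by rw [← adj_add, sub_add_cancel]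
  rw [← h1]; abel

theorem isUnit_adj {a : TwConv h} (ha : IsUnit a) : IsUnit (adj a) := by
  obtain ⟨u, rfl⟩ := ha
  exact ⟨⟨adj u, adj ↑u⁻¹, by rw [← adj_mul, Units.inv_mul, adj_one],
    by rw [← adj_mul, Units.mul_inv, adj_one]⟩, rfl⟩

section Norm

variable [CompactSpace X]

theorem ell1_adj_le (a : TwConv h) : ell1 (adj a) ≤ ell1 a := by
  obtain ⟨N, hN⟩ := exists_band a
  have e : adj a = ∑ n ∈ Finset.Icc (-N : ℤ) N, S h (-n) (alphaPow h (-n) (star (cf a n))) := by
    conv_lhs => rw [eq_sum_S hN, adj_sum]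
    simp only [adj_S]
  rw [e, ell1_eq hN]
  refine (ell1_sum_le _ _).trans (Finset.sum_le_sum fun n _ => ?_)
  rw [ell1_S]
  exact (norm_alphaPow_le h _ _).trans (norm_star _).le

theorem AppU.of_adj {a : TwConv h} (H : AppU (adj a)) : AppU a := by
  intro ε hε
  obtain ⟨b, hb, hab⟩ := H ε hε
  refine ⟨adj b, isUnit_adj hb, lt_of_le_of_lt ?_ hab⟩
  have e : a - adj b = adj (adj a - b) := by rw [adj_sub, adj_adj]
  rw [e]
  exact ell1_adj_le _

/-- `T x` intertwines the adjoints. -/
theorem T_adj (x : X) (a : TwConv h) :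
    T h x (adj a) = ContinuousLinearMap.adjoint (T h x a) := by
  obtain ⟨N, hN⟩ := exists_band a
  rw [eq_sum_S hN, adj_sum, map_sum, map_sum, map_sum]
  refine Finset.sum_congr rfl fun m _ => ?_
  rw [adj_S, ContinuousLinearMap.eq_adjoint_iff]
  intro ξ η
  rw [lp.inner_eq_tsum, lp.inner_eq_tsum]
  simp only [T_S, RCLike.inner_apply, map_mul, alphaPow_apply, ContinuousMap.star_apply, neg_neg]
  rw [← (Equiv.subRight m).tsum_eq]
  refine tsum_congr fun n => ?_
  simp only [Equiv.subRight_apply, sub_neg_eq_add, sub_add_cancel]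
  rw [← hpow_add]
  have e : m + (n - m) = n := by ring
  rw [e]
  simp only [RCLike.star_def, RCLike.conj_conj]
  ring

end Norm

end Pool.Agent.W_MP_3ad462_an
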