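import Pool.Agent.W_MP_3ad462_an.Defs

open scoped ENNReal

namespace Pool.Agent.W_MP_3ad462_an

section Basic

variable {X : Type*} [TopologicalSpace X] {h : X ≃ₜ X}

/-- The monomial `f uⁿ`. -/
noncomputable def S (h : X ≃ₜ X) (n : ℤ) (f : C(X, ℂ)) : TwConv h :=
  (SkewMonoidAlgebra.single (Multiplicative.ofAdd n) f :
    SkewMonoidAlgebra C(X, ℂ) (Multiplicative ℤ))

/-- The `n`-th coefficient. -/
noncomputable def cf (a : TwConv h) (n : ℤ) : C(X, ℂ) :=
  SkewMonoidAlgebra.coeff (k := C(X, ℂ)) (G := Multiplicative ℤ) a (Multiplicative.ofAdd n)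

theorem ext_cf {a b : TwConv h} (H : ∀ n x, cf a n x = cf b n x) : a = b := by
  apply SkewMonoidAlgebra.ext (k := C(X, ℂ)) (G := Multiplicative ℤ)
  intro g
  exact ContinuousMap.ext (H g.toAdd)

@[simp] theorem cf_zero (n : ℤ) : cf (0 : TwConv h) n = 0 := rfl
@[simp] theorem cf_add (a b : TwConv h) (n : ℤ) : cf (a + b) n = cf a n + cf b n := by
  have := SkewMonoidAlgebra.coeff_add (k := C(X, ℂ)) (G := Multiplicative ℤ) a b
  exact congrArg (fun f : Multiplicative ℤ →₀ C(X, ℂ) => f (Multiplicative.ofAdd n)) this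
@[simp] theorem cf_neg (a : TwConv h) (n : ℤ) : cf (-a) n = -cf a n := by
  have := SkewMonoidAlgebra.coeff_neg (k := C(X, ℂ)) (G := Multiplicative ℤ) a
  exact congrArg (fun f : Multiplicative ℤ →₀ C(X, ℂ) => f (Multiplicative.ofAdd n)) this
@[simp] theorem cf_sub (a b : TwConv h) (n : ℤ) : cf (a - b) n = cf a n - cf b n := by
  rw [sub_eq_add_neg, cf_add, cf_neg, sub_eq_add_neg]

theorem cf_sum {ι : Type*} (s : Finset ι) (f : ι → TwConv h) (n : ℤ) :
    cf (∑ i ∈ s, f i) n = ∑ i ∈ s, cf (f i) n := by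
  classical
  induction s using Finset.induction_on with
  | empty => simp
  | insert i s hi ih => rw [Finset.sum_insert hi, Finset.sum_insert hi, cf_add, ih]

theorem cf_S (m n : ℤ) (f : C(X, ℂ)) (x : X) :
    cf (S h m f) n x = if m = n then f x else 0 := by
  unfold cf S
  by_cases hmn : m = n
  · subst hmn
    rw [if_pos rfl, SkewMonoidAlgebra.coeff_single]
    simp
  · rw [if_neg hmn, SkewMonoidAlgebra.coeff_single, Finsupp.single_eq_of_ne]
    · rfl
    · exact fun H => hmn (Multiplicative.ofAdd.injective H.symm)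

theorem cf_one (n : ℤ) (x : X) : cf (1 : TwConv h) n x = if 0 = n then 1 else 0 := by
  have : (1 : TwConv h) = S h 0 1 := rfl
  rw [this, cf_S]; rfl

theorem S_zero_one : S h 0 1 = 1 := rfl

theorem hpow_add (m n : ℤ) (x : X) : (h ^ (m + n)) x = (h ^ m) ((h ^ n) x) := by
  rw [zpow_add]; rfl

@[simp] theorem hpow_zero (x : X) : (h ^ (0 : ℤ)) x = x := rfl

theorem cf_S_mul (m : ℤ) (f : C(X, ℂ)) (a : TwConv h) (n : ℤ) (x : X) :
    cf (S h m f * a) n x = f x * cf a (n - m) ((h ^ (-m)) x) := by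
  let _ := zAction h
  have h1 := SkewMonoidAlgebra.coeff_single_mul (k := C(X, ℂ)) (G := Multiplicative ℤ) f
    (Multiplicative.ofAdd m) a (Multiplicative.ofAdd n)
  have h2 : (Multiplicative.ofAdd m)⁻¹ * Multiplicative.ofAdd n = Multiplicative.ofAdd (n - m) := by
    rw [← ofAdd_neg, ← ofAdd_add, neg_add_eq_sub]
  rw [h2] at h1
  exact congrArg (fun g : C(X, ℂ) => g x) h1

theorem cf_mul_S (m : ℤ) (f : C(X, ℂ)) (a : TwConv h) (n : ℤ) (x : X) :
    cf (a * S h m f) n x = cf a (n - m) x * f ((h ^ (-(n - m))) x) := by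
  let _ := zAction h
  have h1 := SkewMonoidAlgebra.coeff_mul_single (k := C(X, ℂ)) (G := Multiplicative ℤ) a f
    (Multiplicative.ofAdd m) (Multiplicative.ofAdd n)
  have h2 : Multiplicative.ofAdd n * (Multiplicative.ofAdd m)⁻¹ = Multiplicative.ofAdd (n - m) := by
    rw [← ofAdd_neg, ← ofAdd_add, ← sub_eq_add_neg]
  rw [h2] at h1
  exact congrArg (fun g : C(X, ℂ) => g x) h1

theorem S_mul_S (m n : ℤ) (f g : C(X, ℂ)) :
    S h m f * S h n g = S h (m + n) (f * alphaPow h m g) := by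
  let _ := zAction h
  exact SkewMonoidAlgebra.single_mul_single (k := C(X, ℂ)) (G := Multiplicative ℤ)

/-- a bound for the support -/
def Band (a : TwConv h) (N : ℕ) : Prop := ∀ n : ℤ, (N : ℤ) < |n| → cf a n = 0

theorem exists_band (a : TwConv h) : ∃ N, Band a N := by
  classical
  refine ⟨(SkewMonoidAlgebra.support (k := C(X, ℂ)) (G := Multiplicative ℤ) a).sup
    fun m => m.toAdd.natAbs, fun n hn => ?_⟩
  by_contra hne
  have hmem : Multiplicative.ofAdd n ∈
      SkewMonoidAlgebra.support (k := C(X, ℂ)) (G := Multiplicative ℤ) a := by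
    rw [SkewMonoidAlgebra.mem_support_iff]
    exact hne
  have := Finset.le_sup (f := fun m : Multiplicative ℤ => m.toAdd.natAbs) hmem
  simp only [toAdd_ofAdd] at this
  rw [Int.abs_eq_natAbs] at hn
  omega

theorem Band.mono {a : TwConv h} {N M : ℕ} (H : Band a N) (hNM : N ≤ M) : Band a M :=
  fun n hn => H n (by omega)

theorem eq_sum_S {a : TwConv h} {N : ℕ} (H : Band a N) :
    a = ∑ n ∈ Finset.Icc (-N : ℤ) N, S h n (cf a n) := by
  apply ext_cf
  intro n x
  rw [cf_sum, ContinuousMap.sum_apply]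
  simp only [cf_S]
  rw [Finset.sum_ite_eq']
  split_ifs with hn
  · rfl
  · rw [H n (by simp only [Finset.mem_Icc] at hn; rw [lt_abs]; omega)]; rfl

theorem tw_sum_mul {ι : Type*} (s : Finset ι) (f : ι → TwConv h) (b : TwConv h) :
    (∑ i ∈ s, f i) * b = ∑ i ∈ s, f i * b :=
  Finset.sum_mul s f b

theorem tw_mul_sum {ι : Type*} (s : Finset ι) (f : ι → TwConv h) (b : TwConv h) :
    b * (∑ i ∈ s, f i) = ∑ i ∈ s, b * f i :=
  Finset.mul_sum s f b

theorem tw_sum_mul_sum {ι κ : Type*} (s : Finset ι) (t : Finset κ) (f : ι → TwConv h)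
    (g : κ → TwConv h) : (∑ i ∈ s, f i) * (∑ j ∈ t, g j) = ∑ i ∈ s, ∑ j ∈ t, f i * g j :=
  Finset.sum_mul_sum s t f g

theorem cf_mul {a : TwConv h} {N : ℕ} (H : Band a N) (b : TwConv h) (n : ℤ) (x : X) :
    cf (a * b) n x = ∑ m ∈ Finset.Icc (-N : ℤ) N, cf a m x * cf b (n - m) ((h ^ (-m)) x) := by
  conv_lhs => rw [eq_sum_S H, tw_sum_mul, cf_sum, ContinuousMap.sum_apply]
  simp only [cf_S_mul]

theorem S_add (n : ℤ) (f g : C(X, ℂ)) : S h n (f + g) = S h n f + S h n g :=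
  SkewMonoidAlgebra.single_add (k := C(X, ℂ)) (G := Multiplicative ℤ) _ _ _

@[simp] theorem S_zero (n : ℤ) : S h n (0 : C(X, ℂ)) = 0 :=
  SkewMonoidAlgebra.single_zero (k := C(X, ℂ)) (G := Multiplicative ℤ) _

theorem S_sum {ι : Type*} (s : Finset ι) (n : ℤ) (f : ι → C(X, ℂ)) :
    S h n (∑ i ∈ s, f i) = ∑ i ∈ s, S h n (f i) := by
  classical
  induction s using Finset.induction_on with
  | empty => simp
  | insert i s hi ih => rw [Finset.sum_insert hi, Finset.sum_insert hi, S_add, ih]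

/-- all coefficients vanish at the point `x` -/
def Van (a : TwConv h) (x : X) : Prop := ∀ n, cf a n x = 0

theorem Van.mul_right {a : TwConv h} {x : X} (H : Van a x) (b : TwConv h) : Van (a * b) x := by
  obtain ⟨N, hN⟩ := exists_band a
  intro n
  rw [cf_mul hN]
  exact Finset.sum_eq_zero fun m _ => by rw [H m, zero_mul]

theorem Van.mul_left {a b : TwConv h} {x : X}
    (H : ∀ m, cf a m x = 0 ∨ Van b ((h ^ (-m)) x)) : Van (a * b) x := by
  obtain ⟨N, hN⟩ := exists_band a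
  intro n
  rw [cf_mul hN]
  refine Finset.sum_eq_zero fun m _ => ?_
  rcases H m with H | H
  · rw [H, zero_mul]
  · rw [H, mul_zero]

theorem eq_zero_of_van {a : TwConv h} (H : ∀ x, Van a x) : a = 0 :=
  ext_cf fun n x => H x n

/-- sandwich lemma -/
theorem sandwich {φ ψ : C(X, ℂ)} {v : TwConv h}
    (H : ∀ m : ℤ, m ≠ 0 → cf v m = 0 ∨ ∀ x, φ x * ψ ((h ^ (-m)) x) = 0) :
    S h 0 φ * v * S h 0 ψ = S h 0 (φ * cf v 0 * ψ) := by
  apply ext_cf
  intro n x
  rw [cf_mul_S, cf_S_mul, cf_S]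
  simp only [sub_zero, neg_zero, hpow_zero]
  by_cases hn : (0 : ℤ) = n
  · subst hn
    simp
  · rw [if_neg hn]
    rcases H n (Ne.symm hn) with H | H
    · rw [H]; simp
    · have := H x
      linear_combination (cf v n x) * this

/-- zero rows over `U` -/
def ZR (a : TwConv h) (U : Set X) : Prop := ∀ n x, x ∈ U → cf a n x = 0

/-- zero columns over `U` -/
def ZC (a : TwConv h) (U : Set X) : Prop := ∀ n x, (h ^ (-n)) x ∈ U → cf a n x = 0

theorem ZC.mul_left {a : TwConv h} {U : Set X} (H : ZC a U) (b : TwConv h) : ZC (b * a) U := by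
  obtain ⟨N, hN⟩ := exists_band b
  intro n x hx
  rw [cf_mul hN]
  refine Finset.sum_eq_zero fun m _ => ?_
  rw [H (n - m), mul_zero]
  have e : -(n - m) + -m = -n := by ring
  rw [← hpow_add, e]
  exact hx

theorem ZR.mul_right {a : TwConv h} {U : Set X} (H : ZR a U) (b : TwConv h) : ZR (a * b) U :=
  fun n _ hx => Van.mul_right (fun m => H m _ hx) b n

theorem ZR.mono {a : TwConv h} {U V : Set X} (H : ZR a U) (hV : V ⊆ U) : ZR a V :=
  fun n x hx => H n x (hV hx)

theorem ZC.mono {a : TwConv h} {U V : Set X} (H : ZC a U) (hV : V ⊆ U) : ZC a V :=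
  fun n x hx => H n x (hV hx)

end Basic

section Norm

variable {X : Type*} [TopologicalSpace X] [CompactSpace X] {h : X ≃ₜ X}

theorem ell1_eq {a : TwConv h} {N : ℕ} (H : Band a N) :
    ell1 a = ∑ n ∈ Finset.Icc (-N : ℤ) N, ‖cf a n‖ := by
  classical
  unfold ell1
  rw [SkewMonoidAlgebra.sum_def]
  have : ∑ n ∈ Finset.Icc (-N : ℤ) N, ‖cf a n‖ =
      ∑ m ∈ (Finset.Icc (-N : ℤ) N).map Multiplicative.ofAdd.toEmbedding,
        ‖SkewMonoidAlgebra.coeff (k := C(X, ℂ)) (G := Multiplicative ℤ) a m‖ := by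
    rw [Finset.sum_map]; rfl
  rw [this]
  refine Finset.sum_subset ?_ ?_
  · intro m hm
    rw [Finsupp.mem_support_iff] at hm
    rw [Finset.mem_map]
    refine ⟨m.toAdd, ?_, rfl⟩
    by_contra hcon
    apply hm
    have := H m.toAdd (by simp only [Finset.mem_Icc] at hcon; rw [lt_abs]; omega)
    exact this
  · intro m _ hm
    rw [Finsupp.notMem_support_iff] at hm
    rw [hm]
    exact norm_zero

theorem ell1_nonneg (a : TwConv h) : 0 ≤ ell1 a := by
  obtain ⟨N, hN⟩ := exists_band a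
  rw [ell1_eq hN]
  positivity

theorem ell1_S (n : ℤ) (f : C(X, ℂ)) : ell1 (S h n f) = ‖f‖ := by
  unfold ell1 S
  rw [SkewMonoidAlgebra.sum_single_index]
  exact norm_zero

theorem ell1_add_le (a b : TwConv h) : ell1 (a + b) ≤ ell1 a + ell1 b := by
  obtain ⟨N, hN⟩ := exists_band a
  obtain ⟨M, hM⟩ := exists_band b
  have hN' := hN.mono (le_max_left N M)
  have hM' := hM.mono (le_max_right N M)
  have hab : Band (a + b) (max N M) := fun n hn => by rw [cf_add, hN' n hn, hM' n hn, add_zero]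
  rw [ell1_eq hN', ell1_eq hM', ell1_eq hab, ← Finset.sum_add_distrib]
  exact Finset.sum_le_sum fun n _ => by rw [cf_add]; exact norm_add_le _ _

theorem ell1_neg (a : TwConv h) : ell1 (-a) = ell1 a := by
  obtain ⟨N, hN⟩ := exists_band a
  have hab : Band (-a) N := fun n hn => by rw [cf_neg, hN n hn, neg_zero]
  rw [ell1_eq hN, ell1_eq hab]
  exact Finset.sum_congr rfl fun n _ => by rw [cf_neg, norm_neg]

theorem ell1_sub_le (a b : TwConv h) : ell1 (a - b) ≤ ell1 a + ell1 b := by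
  rw [sub_eq_add_neg]
  exact (ell1_add_le _ _).trans (by rw [ell1_neg])

theorem ell1_zero : ell1 (0 : TwConv h) = 0 := by
  have := ell1_S (h := h) 0 (0 : C(X, ℂ))
  simpa using this

theorem ell1_sum_le {ι : Type*} (s : Finset ι) (f : ι → TwConv h) :
    ell1 (∑ i ∈ s, f i) ≤ ∑ i ∈ s, ell1 (f i) := by
  classical
  induction s using Finset.induction_on with
  | empty => simp [ell1_zero]
  | insert i s hi ih =>
    rw [Finset.sum_insert hi, Finset.sum_insert hi]
    exact (ell1_add_le _ _).trans (add_le_add le_rfl ih)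

theorem ell1_mul_le (a b : TwConv h) : ell1 (a * b) ≤ ell1 a * ell1 b := by
  obtain ⟨N, hN⟩ := exists_band a
  obtain ⟨M, hM⟩ := exists_band b
  have key : a * b = ∑ m ∈ Finset.Icc (-N : ℤ) N, ∑ n ∈ Finset.Icc (-M : ℤ) M,
      S h (m + n) (cf a m * alphaPow h m (cf b n)) := by
    conv_lhs => rw [eq_sum_S hN, eq_sum_S hM, tw_sum_mul_sum]
    simp only [S_mul_S]
  rw [key, ell1_eq hN, ell1_eq hM, Finset.sum_mul_sum]
  refine (ell1_sum_le _ _).trans (Finset.sum_le_sum fun m _ => ?_)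
  refine (ell1_sum_le _ _).trans (Finset.sum_le_sum fun n _ => ?_)
  rw [ell1_S]
  exact (norm_mul_le _ _).trans (mul_le_mul_of_nonneg_left (norm_alphaPow_le h m _) (norm_nonneg _))

/-- `a` is an `ℓ¹`-limit of units of the twisted convolution algebra -/
def AppU (a : TwConv h) : Prop := ∀ ε > 0, ∃ b : TwConv h, IsUnit b ∧ ell1 (a - b) < ε

theorem AppU.closed {a : TwConv h} (H : ∀ ε > 0, ∃ b : TwConv h, AppU b ∧ ell1 (a - b) < ε) :
    AppU a := by
  intro ε hε
  obtain ⟨b, hb, hab⟩ := H (ε / 2) (by positivity)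
  obtain ⟨c, hc, hbc⟩ := hb (ε / 2) (by positivity)
  refine ⟨c, hc, ?_⟩
  have : a - c = (a - b) + (b - c) := by abel
  rw [this]
  exact (ell1_add_le _ _).trans_lt (by linarith)

theorem AppU.mul_unit {a w : TwConv h} (H : AppU (a * w)) (hw : IsUnit w) : AppU a := by
  obtain ⟨v, hwv, hvu⟩ : ∃ v : TwConv h, w * v = 1 ∧ IsUnit v := by
    obtain ⟨w, rfl⟩ := hw
    exact ⟨↑w⁻¹, Units.mul_inv w, w⁻¹.isUnit⟩
  intro ε hε
  obtain ⟨K, hK⟩ : ∃ K, K = ell1 v := ⟨_, rfl⟩
  have hK0 : 0 ≤ K := hK ▸ ell1_nonneg v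
  have hpos : 0 < K + 1 := by linarith
  obtain ⟨b, hb, hab⟩ := H (ε / (K + 1)) (by positivity)
  refine ⟨b * v, hb.mul hvu, ?_⟩
  have e : a - b * v = (a * w - b) * v := by
    rw [sub_mul, mul_assoc, hwv, mul_one]
  rw [e]
  have h1 : ell1 ((a * w - b) * v) ≤ ell1 (a * w - b) * K := hK ▸ ell1_mul_le _ _
  have h2 : ell1 (a * w - b) * K ≤ ell1 (a * w - b) * (K + 1) :=
    mul_le_mul_of_nonneg_left (by linarith) (ell1_nonneg _)
  have h3 : ell1 (a * w - b) * (K + 1) < ε := by rwa [lt_div_iff₀ hpos] at hab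
  linarith

theorem AppU.unit_mul {a w : TwConv h} (H : AppU (w * a)) (hw : IsUnit w) : AppU a := by
  obtain ⟨v, hwv, hvu⟩ : ∃ v : TwConv h, v * w = 1 ∧ IsUnit v := by
    obtain ⟨w, rfl⟩ := hw
    exact ⟨↑w⁻¹, Units.inv_mul w, w⁻¹.isUnit⟩
  intro ε hε
  obtain ⟨K, hK⟩ : ∃ K, K = ell1 v := ⟨_, rfl⟩
  have hK0 : 0 ≤ K := hK ▸ ell1_nonneg v
  have hpos : 0 < K + 1 := by linarith
  obtain ⟨b, hb, hab⟩ := H (ε / (K + 1)) (by positivity)
  refine ⟨v * b, hvu.mul hb, ?_⟩
  have e : a - v * b = v * (w * a - b) := by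
    rw [mul_sub, ← mul_assoc, hwv, one_mul]
  rw [e]
  have h1 : ell1 (v * (w * a - b)) ≤ K * ell1 (w * a - b) := hK ▸ ell1_mul_le _ _
  have h2 : K * ell1 (w * a - b) ≤ (K + 1) * ell1 (w * a - b) :=
    mul_le_mul_of_nonneg_right (by linarith) (ell1_nonneg _)
  have h3 : (K + 1) * ell1 (w * a - b) < ε := by rwa [lt_div_iff₀' hpos] at hab
  linarith

end Norm

end Pool.Agent.W_MP_3ad462_an
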