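import Pool.Agent.W_MP_3ad462_an.Rows

open scoped ENNReal ComplexConjugate
open Topology

namespace Pool.Agent.W_MP_3ad462_an

variable {X : Type*} [TopologicalSpace X] {h : X ≃ₜ X}

/-- the element `∑ ξ_i u^i` -/
noncomputable def vec (h : X ≃ₜ X) (L : ℕ) (ξ : ℤ → ℂ) : TwConv h :=
  ∑ i ∈ Finset.Icc (-L : ℤ) L, S h i (ContinuousMap.const X (ξ i))

/-- the element `∑ conj ξ_i u^{-i}` -/
noncomputable def covec (h : X ≃ₜ X) (L : ℕ) (ξ : ℤ → ℂ) : TwConv h :=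
  ∑ i ∈ Finset.Icc (-L : ℤ) L, S h (-i) (ContinuousMap.const X (conj (ξ i)))

theorem cf_mul_vec (a : TwConv h) (L : ℕ) (ξ : ℤ → ℂ) (n : ℤ) (x : X) :
    cf (a * vec h L ξ) n x = ∑ i ∈ Finset.Icc (-L : ℤ) L, cf a (n - i) x * ξ i := by
  unfold vec
  rw [tw_mul_sum, cf_sum, ContinuousMap.sum_apply]
  simp only [cf_mul_S, ContinuousMap.const_apply]

theorem cf_mul_covec (a : TwConv h) (L : ℕ) (ξ : ℤ → ℂ) (n : ℤ) (x : X) :
    cf (a * covec h L ξ) n x =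
      ∑ i ∈ Finset.Icc (-L : ℤ) L, cf a (n + i) x * conj (ξ i) := by
  unfold covec
  rw [tw_mul_sum, cf_sum, ContinuousMap.sum_apply]
  simp only [cf_mul_S, ContinuousMap.const_apply, sub_neg_eq_add]

theorem cf_vec (L : ℕ) (ξ : ℤ → ℂ) (n : ℤ) (x : X) :
    cf (vec h L ξ) n x = if n ∈ Finset.Icc (-L : ℤ) L then ξ n else 0 := by
  unfold vec
  rw [cf_sum, ContinuousMap.sum_apply]
  simp only [cf_S, ContinuousMap.const_apply]
  rw [Finset.sum_ite_eq']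

theorem cf_covec_mul_vec (L : ℕ) (ξ : ℤ → ℂ) (n : ℤ) (x : X) :
    cf (covec h L ξ * vec h L ξ) n x =
      ∑ i ∈ Finset.Icc (-L : ℤ) L, conj (ξ i) *
        (if n + i ∈ Finset.Icc (-L : ℤ) L then ξ (n + i) else 0) := by
  unfold covec
  rw [tw_sum_mul, cf_sum, ContinuousMap.sum_apply]
  simp only [cf_S_mul, ContinuousMap.const_apply, sub_neg_eq_add, cf_vec]

theorem appU_of_approx_null [Nonempty X] [CompactSpace X] [T2Space X] (hd : GoodDyn h)
    {a : TwConv h} {N : ℕ} (hN : Band a N)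
    (H : ∀ ε : ℝ, 0 < ε → ∃ (L : ℕ) (x₀ : X) (ξ : ℤ → ℂ),
      ∑ i ∈ Finset.Icc (-L : ℤ) L, ‖ξ i‖ ^ 2 = 1 ∧
      (4 * L + 2 * N + 1 : ℝ) * ∑ n ∈ Finset.Icc (-(L + N : ℤ)) (L + N),
        ‖∑ i ∈ Finset.Icc (-L : ℤ) L, cf a (n - i) ((h ^ n) x₀) * ξ i‖ ^ 2 < ε) :
    AppU a := by
  classical
  refine AppU.closed fun ε hε => ?_
  obtain ⟨L, x₀, ξ, hξ1, hξ2⟩ := H (ε ^ 2 / 2) (by positivity)
  let g : ℤ → X → ℂ := fun n y => cf (a * vec h L ξ) n ((h ^ n) y)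
  have hg : ∀ n, g n x₀ = ∑ i ∈ Finset.Icc (-L : ℤ) L, cf a (n - i) ((h ^ n) x₀) * ξ i :=
    fun n => cf_mul_vec a L ξ n _
  have hgc : ∀ n, Continuous (g n) := fun n =>
    (cf (a * vec h L ξ) n).continuous.comp (h ^ n).continuous
  obtain ⟨G, hG⟩ : ∃ G, G = ∑ n ∈ Finset.Icc (-(L + N : ℤ)) (L + N), ‖g n x₀‖ ^ 2 := ⟨_, rfl⟩
  have hG2 : (4 * L + 2 * N + 1 : ℝ) * G < ε ^ 2 / 2 := by
    rw [hG]; simp only [hg]; exact hξ2
  obtain ⟨δ, hδ, hδε⟩ : ∃ δ > 0, (4 * L + 2 * N + 1 : ℝ) * ((2 * (L + N) + 1) * δ) < ε ^ 2 / 2 := by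
    refine ⟨ε ^ 2 / (4 * ((4 * L + 2 * N + 1) * (2 * (L + N) + 1))), by positivity, ?_⟩
    have h1 : (0 : ℝ) < (4 * L + 2 * N + 1) * (2 * (L + N) + 1) := by positivity
    have e : (4 * L + 2 * N + 1 : ℝ) * ((2 * (L + N) + 1) *
        (ε ^ 2 / (4 * ((4 * L + 2 * N + 1) * (2 * (L + N) + 1))))) = ε ^ 2 / 4 := by
      field_simp
    rw [e]
    have : 0 < ε ^ 2 := by positivity
    linarith
  -- small neighbourhood
  obtain ⟨W₀, hW₀o, hW₀x, hW₀⟩ := exists_disjoint_nhd hd x₀ (2 * L)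
  obtain ⟨W, hWo, hWx, hWW₀, hWs⟩ : ∃ W : Set X, IsOpen W ∧ x₀ ∈ W ∧ W ⊆ W₀ ∧
      ∀ n ∈ Finset.Icc (-(L + N : ℤ)) (L + N), ∀ x ∈ W, ‖g n x‖ ^ 2 ≤ ‖g n x₀‖ ^ 2 + δ := by
    refine ⟨W₀ ∩ ⋂ n ∈ Finset.Icc (-(L + N : ℤ)) (L + N), {x | ‖g n x‖ ^ 2 < ‖g n x₀‖ ^ 2 + δ},
      hW₀o.inter (isOpen_biInter_finset fun n _ =>
        isOpen_lt ((hgc n).norm.pow 2) continuous_const),
      ⟨hW₀x, Set.mem_iInter₂.mpr fun n _ => by
        change ‖g n x₀‖ ^ 2 < ‖g n x₀‖ ^ 2 + δ; linarith⟩, Set.inter_subset_left, ?_⟩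
    intro n hn x hx
    exact (Set.mem_iInter₂.mp hx.2 n hn).le
  obtain ⟨χ, V, hVo, hVx, hVW, hχ1, hχ0, hχn⟩ := exists_bump hWo hWx
  have hW' : ∀ x ∈ W, ∀ l : ℤ, l ≠ 0 → |l| ≤ 2 * L → (h ^ (-l)) x ∉ W := by
    intro x hx l hl hlm hx'
    exact hW₀ x (hWW₀ hx) (-l) (neg_ne_zero.mpr hl) (by rw [abs_neg]; exact_mod_cast hlm)
      (hWW₀ hx')
  -- the perturbation
  let y : TwConv h := a * vec h L ξ * S h 0 χ
  let b : TwConv h := y * covec h L ξ
  have hycf : ∀ n x, cf y n x = cf (a * vec h L ξ) n x * χ ((h ^ (-n)) x) := by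
    intro n x
    simp only [y]
    rw [cf_mul_S]; simp
  have hyband : Band y (L + N) := by
    intro n hn
    ext x
    rw [hycf, cf_mul_vec]
    have : ∑ i ∈ Finset.Icc (-L : ℤ) L, cf a (n - i) x * ξ i = 0 := by
      refine Finset.sum_eq_zero fun i hi => ?_
      rw [hN]
      · simp
      · rw [Finset.mem_Icc] at hi
        rw [lt_abs] at hn ⊢
        push_cast at hn
        omega
    rw [this]; simp
  have hynorm : ∀ n ∈ Finset.Icc (-(L + N : ℤ)) (L + N), ‖cf y n‖ ^ 2 ≤ ‖g n x₀‖ ^ 2 + δ := by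
    intro n hn
    have hB : (0 : ℝ) ≤ ‖g n x₀‖ ^ 2 + δ := by positivity
    rw [← Real.le_sqrt (norm_nonneg _) hB, ContinuousMap.norm_le _ (Real.sqrt_nonneg _)]
    intro x
    rw [Real.le_sqrt (norm_nonneg _) hB, hycf, norm_mul, mul_pow]
    by_cases hx : (h ^ (-n)) x ∈ W
    · have h1 := hWs n hn _ hx
      have h2 : g n ((h ^ (-n)) x) = cf (a * vec h L ξ) n x := by
        simp only [g]
        rw [← hpow_add, add_neg_cancel, hpow_zero]
      rw [h2] at h1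
      have h3 : ‖χ ((h ^ (-n)) x)‖ ^ 2 ≤ 1 := pow_le_one₀ (norm_nonneg _) (hχn _)
      calc ‖cf (a * vec h L ξ) n x‖ ^ 2 * ‖χ ((h ^ (-n)) x)‖ ^ 2
          ≤ ‖cf (a * vec h L ξ) n x‖ ^ 2 * 1 := by gcongr
        _ ≤ _ := by rw [mul_one]; exact h1
    · rw [hχ0 _ hx]; simpa using hB
  have hbcf : ∀ m x, cf b m x = ∑ i ∈ Finset.Icc (-L : ℤ) L, cf y (m + i) x * conj (ξ i) :=
    fun m x => cf_mul_covec y L ξ m x
  have hbband : Band b (2 * L + N) := by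
    intro n hn
    ext x
    rw [hbcf]
    refine Finset.sum_eq_zero fun i hi => ?_
    rw [hyband]
    · simp
    · rw [Finset.mem_Icc] at hi
      rw [lt_abs] at hn ⊢
      push_cast at hn ⊢
      omega
  have hbpt : ∀ m x, ‖cf b m x‖ ^ 2 ≤
      ∑ i ∈ Finset.Icc (-L : ℤ) L, ‖ξ i‖ ^ 2 * ‖cf y (m + i)‖ ^ 2 := by
    intro m x
    rw [hbcf]
    by_cases hex : ∃ i ∈ Finset.Icc (-L : ℤ) L, (h ^ (-(m + i))) x ∈ W
    · obtain ⟨i₀, hi₀, hi₀W⟩ := hex
      rw [Finset.sum_eq_single i₀]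
      · rw [norm_mul, mul_pow, RCLike.norm_conj, mul_comm]
        refine le_trans ?_ (Finset.single_le_sum
          (f := fun i => ‖ξ i‖ ^ 2 * ‖cf y (m + i)‖ ^ 2) (fun i _ => by positivity) hi₀)
        gcongr
        exact (cf y (m + i₀)).norm_coe_le_norm x
      · intro i hi hii
        rw [hycf]
        have : (h ^ (-(m + i))) x ∉ W := by
          have e : -(m + i) = -(i - i₀) + -(m + i₀) := by ring
          rw [e, hpow_add]
          refine hW' _ hi₀W (i - i₀) (sub_ne_zero.mpr hii) ?_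
          rw [Finset.mem_Icc] at hi hi₀
          rw [abs_le]
          omega
        rw [hχ0 _ this]; simp
      · intro hni
        exact absurd hi₀ hni
    · push Not at hex
      rw [Finset.sum_eq_zero]
      · rw [norm_zero]
        have : (0 : ℝ) ^ 2 = 0 := by norm_num
        rw [this]
        positivity
      · intro i hi
        rw [hycf, hχ0 _ (hex i hi)]; simp
  have hbnorm : ∀ m, ‖cf b m‖ ^ 2 ≤
      ∑ i ∈ Finset.Icc (-L : ℤ) L, ‖ξ i‖ ^ 2 * ‖cf y (m + i)‖ ^ 2 := by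
    intro m
    have hB : 0 ≤ ∑ i ∈ Finset.Icc (-L : ℤ) L, ‖ξ i‖ ^ 2 * ‖cf y (m + i)‖ ^ 2 := by positivity
    rw [← Real.le_sqrt (norm_nonneg _) hB, ContinuousMap.norm_le _ (Real.sqrt_nonneg _)]
    intro x
    rw [Real.le_sqrt (norm_nonneg _) hB]
    exact hbpt m x
  have hell : ell1 b ^ 2 < ε ^ 2 := by
    rw [ell1_eq hbband]
    refine lt_of_le_of_lt (sq_sum_le_card_mul_sum_sq) ?_
    have hcard : ((Finset.Icc (-((2 * L + N : ℕ) : ℤ)) ((2 * L + N : ℕ) : ℤ)).card : ℝ) =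
        4 * L + 2 * N + 1 := by
      rw [Int.card_Icc]
      have : (((2 * L + N : ℕ) : ℤ) + 1 - -((2 * L + N : ℕ) : ℤ)).toNat = 4 * L + 2 * N + 1 := by
        omega
      rw [this]; push_cast; ring
    rw [hcard]
    have hsum : ∑ m ∈ Finset.Icc (-((2 * L + N : ℕ) : ℤ)) ((2 * L + N : ℕ) : ℤ), ‖cf b m‖ ^ 2 ≤
        G + (2 * (L + N) + 1) * δ := by
      calc ∑ m ∈ Finset.Icc (-((2 * L + N : ℕ) : ℤ)) ((2 * L + N : ℕ) : ℤ), ‖cf b m‖ ^ 2
          ≤ ∑ m ∈ Finset.Icc (-((2 * L + N : ℕ) : ℤ)) ((2 * L + N : ℕ) : ℤ),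
            ∑ i ∈ Finset.Icc (-L : ℤ) L, ‖ξ i‖ ^ 2 * ‖cf y (m + i)‖ ^ 2 :=
            Finset.sum_le_sum fun m _ => hbnorm m
        _ = ∑ i ∈ Finset.Icc (-L : ℤ) L, ‖ξ i‖ ^ 2 *
            ∑ m ∈ Finset.Icc (-((2 * L + N : ℕ) : ℤ)) ((2 * L + N : ℕ) : ℤ),
              ‖cf y (m + i)‖ ^ 2 := by
            rw [Finset.sum_comm]
            exact Finset.sum_congr rfl fun i _ => by rw [Finset.mul_sum]
        _ ≤ ∑ i ∈ Finset.Icc (-L : ℤ) L, ‖ξ i‖ ^ 2 *
            ∑ n ∈ Finset.Icc (-(L + N : ℤ)) (L + N), ‖cf y n‖ ^ 2 := by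
            gcongr with i hi
            have e : ∑ m ∈ Finset.Icc (-((2 * L + N : ℕ) : ℤ)) ((2 * L + N : ℕ) : ℤ),
                ‖cf y (m + i)‖ ^ 2 =
                ∑ n ∈ (Finset.Icc (-((2 * L + N : ℕ) : ℤ)) ((2 * L + N : ℕ) : ℤ)).map
                  (addRightEmbedding i), ‖cf y n‖ ^ 2 := by
              rw [Finset.sum_map]; rfl
            rw [e]
            refine (Finset.sum_le_sum_of_subset_of_nonneg Finset.subset_union_left
              (t := _ ∪ Finset.Icc (-(L + N : ℤ)) (L + N)) fun _ _ _ => by positivity).trans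
              (le_of_eq (Finset.sum_subset Finset.subset_union_right fun n _ hcon => ?_).symm)
            rw [hyband n (by
              rw [Finset.mem_Icc] at hcon
              push_cast
              rw [lt_abs]
              omega)]
            simp
        _ = ∑ n ∈ Finset.Icc (-(L + N : ℤ)) (L + N), ‖cf y n‖ ^ 2 := by
            rw [← Finset.sum_mul, hξ1, one_mul]
        _ ≤ ∑ n ∈ Finset.Icc (-(L + N : ℤ)) (L + N), (‖g n x₀‖ ^ 2 + δ) :=
            Finset.sum_le_sum hynorm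
        _ = G + (2 * (L + N) + 1) * δ := by
            rw [Finset.sum_add_distrib, ← hG, Finset.sum_const, Int.card_Icc, nsmul_eq_mul]
            have : ((L + N : ℤ) + 1 - -(L + N : ℤ)).toNat = 2 * (L + N) + 1 := by omega
            rw [this]; push_cast; ring
    calc (4 * L + 2 * N + 1 : ℝ) * ∑ m ∈ Finset.Icc (-((2 * L + N : ℕ) : ℤ))
          ((2 * L + N : ℕ) : ℤ), ‖cf b m‖ ^ 2
        ≤ (4 * L + 2 * N + 1) * (G + (2 * (L + N) + 1) * δ) := by gcongr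
      _ = (4 * L + 2 * N + 1) * G + (4 * L + 2 * N + 1) * ((2 * (L + N) + 1) * δ) := by ring
      _ < ε ^ 2 := by linarith
  have hell' : ell1 b < ε := lt_of_pow_lt_pow_left₀ 2 hε.le hell
  refine ⟨a - b, ?_, by
    have : a - (a - b) = b := by abel
    rw [this]; exact hell'⟩
  -- the perturbed element kills `vec ξ` over `V`
  have hZ : ZC ((a - b) * vec h L ξ) V := by
    have hE : ZC (S h 0 χ * (covec h L ξ * vec h L ξ) - 1) V := by
      intro n x hx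
      rw [cf_sub, ContinuousMap.sub_apply, cf_S_mul, cf_one]
      simp only [sub_zero, neg_zero, hpow_zero]
      by_cases hn : (0 : ℤ) = n
      · subst hn
        simp only [neg_zero, hpow_zero] at hx
        rw [if_pos rfl, hχ1 x hx, one_mul, cf_covec_mul_vec]
        have : ∑ i ∈ Finset.Icc (-L : ℤ) L, conj (ξ i) *
            (if 0 + i ∈ Finset.Icc (-L : ℤ) L then ξ (0 + i) else 0) =
            ∑ i ∈ Finset.Icc (-L : ℤ) L, ((‖ξ i‖ ^ 2 : ℝ) : ℂ) := by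
          refine Finset.sum_congr rfl fun i hi => ?_
          rw [zero_add, if_pos hi, RCLike.conj_mul]
          push_cast; rfl
        rw [this, ← Complex.ofReal_sum, hξ1]
        simp
      · rw [if_neg hn, sub_zero]
        by_cases hn2 : |n| ≤ 2 * L
        · have hxW : x ∉ W := by
            intro hxW
            exact hW' x hxW n (Ne.symm hn) hn2 (hVW hx)
          rw [hχ0 x hxW, zero_mul]
        · rw [cf_covec_mul_vec, Finset.sum_eq_zero, mul_zero]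
          intro i hi
          rw [if_neg, mul_zero]
          intro hni
          apply hn2
          rw [Finset.mem_Icc] at hi hni
          rw [abs_le]
          omega
    have e : (a - b) * vec h L ξ =
        -(a * vec h L ξ) * (S h 0 χ * (covec h L ξ * vec h L ξ) - 1) := by
      simp only [b, y]
      rw [sub_mul, mul_sub, mul_one]
      simp only [mul_assoc, neg_mul]
      abel
    rw [e]
    exact hE.mul_left _
  -- normalisation
  obtain ⟨i₀, hi₀, hi₀ne⟩ : ∃ i ∈ Finset.Icc (-L : ℤ) L, ξ i ≠ 0 := by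
    by_contra hcon
    push Not at hcon
    rw [Finset.sum_eq_zero] at hξ1
    · exact zero_ne_one hξ1
    · intro i hi
      rw [hcon i hi]; simp
  refine appU_of_null hd (v := vec h L ξ * S h (-i₀) (ContinuousMap.const X (ξ i₀)⁻¹))
    (V := (h ^ (-i₀)) ⁻¹' V) (hVo.preimage (h ^ (-i₀)).continuous)
    ⟨(h ^ i₀) x₀, by
      change (h ^ (-i₀)) ((h ^ i₀) x₀) ∈ V
      rw [← hpow_add, neg_add_cancel]; exact hVx⟩ ?_ ?_
  · ext x
    rw [cf_mul_S, cf_vec]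
    simp [hi₀, hi₀ne]
  · rw [← mul_assoc]
    intro n x hx
    rw [cf_mul_S, hZ, zero_mul]
    have e : -(n - -i₀) = -i₀ + -n := by ring
    rw [e, hpow_add]
    exact hx

end Pool.Agent.W_MP_3ad462_an
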