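import Pool.Agent.W_MP_3ad462_an.Adj
import Pool.Agent.W_MP_3ad462_an.Loc

open scoped ENNReal NNReal ComplexConjugate
open Topology Filter

namespace Pool.Agent.W_MP_3ad462_an

/-- A positive operator whose quadratic form is at most `ρ` has norm at most `ρ`. -/
theorem opNorm_le_of_form {E : Type*} [NormedAddCommGroup E] [InnerProductSpace ℂ E]
    [CompleteSpace E] {P : E →L[ℂ] E} {ρ : ℝ} (hρ : 0 ≤ ρ) (h0 : P.IsPositive)
    (h1 : ∀ ξ, RCLike.re (inner ℂ (P ξ) ξ) ≤ ρ * ‖ξ‖ ^ 2) : ‖P‖ ≤ ρ := by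
  have hP : 0 ≤ P := (ContinuousLinearMap.nonneg_iff_isPositive P).mpr h0
  rw [CStarAlgebra.norm_le_iff_le_algebraMap P hρ hP, ContinuousLinearMap.le_def,
    ContinuousLinearMap.isPositive_def']
  refine ⟨?_, fun ξ => ?_⟩
  · exact (IsSelfAdjoint.algebraMap _ (IsSelfAdjoint.all ρ)).sub h0.isSelfAdjoint
  · have := h1 ξ
    rw [ContinuousLinearMap.reApplyInnerSelf]
    have e : (algebraMap ℝ (E →L[ℂ] E) ρ - P) ξ = (ρ : ℂ) • ξ - P ξ := by
      rw [_root_.sub_apply]
      congr 1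
    rw [e, inner_sub_left, inner_smul_left, inner_self_eq_norm_sq_to_K, map_sub]
    simp only [Complex.conj_ofReal]
    have e2 : RCLike.re ((ρ : ℂ) * (‖ξ‖ : ℂ) ^ 2) = ρ * ‖ξ‖ ^ 2 := by
      norm_cast
    simp only [Complex.coe_algebraMap] at *
    rw [e2]
    linarith

variable {X : Type*} [TopologicalSpace X] [CompactSpace X] {h : X ≃ₜ X}

theorem norm_cf_le_of_norm_T_le {b : TwConv h} {C : ℝ} (hC : ∀ x, ‖T h x b‖ ≤ C) (hC0 : 0 ≤ C)
    (n : ℤ) : ‖cf b n‖ ≤ C := by
  obtain ⟨N, hN⟩ := exists_band b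
  rw [ContinuousMap.norm_le _ hC0]
  intro y
  let x := (h ^ (-n)) y
  let δ₀ : lp (fun _ : ℤ => ℂ) 2 := lp.single 2 0 1
  have hδ : ‖δ₀‖ = 1 := by
    simp only [δ₀]
    rw [lp.norm_single (by norm_num)]; simp
  have h1 : T h x b δ₀ n = cf b n y := by
    rw [T_apply hN, act_eq_sum hN 0]
    · simp only [δ₀, x]
      rw [← hpow_add]
      simp
    · intro i hi
      simp only [δ₀]
      rw [lp.single_apply, Pi.single_eq_of_ne]
      rintro rfl
      simp at hi
  rw [← h1]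
  calc ‖T h x b δ₀ n‖ ≤ ‖T h x b δ₀‖ := lp.norm_apply_le_norm (by norm_num) _ _
    _ ≤ ‖T h x b‖ * ‖δ₀‖ := (T h x b).le_opNorm _
    _ ≤ C := by rw [hδ, mul_one]; exact hC x

omit [CompactSpace X] in
theorem Band.mul {a b : TwConv h} {N M : ℕ} (hN : Band a N) (hM : Band b M) :
    Band (a * b) (N + M) := by
  intro n hn
  ext x
  rw [cf_mul hN]
  refine Finset.sum_eq_zero fun m hm => ?_
  rw [hM]
  · simp
  · rw [Finset.mem_Icc] at hm
    rw [lt_abs] at hn ⊢
    push_cast at hn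
    omega

omit [CompactSpace X] in
theorem Band.pow {a : TwConv h} {N : ℕ} (hN : Band a N) (n : ℕ) : Band (a ^ n) (n * N) := by
  induction n with
  | zero =>
    intro m hm
    ext x
    rw [pow_zero, cf_one, if_neg]
    · rfl
    · rintro rfl
      simp at hm
  | succ n ih =>
    rw [pow_succ]
    have := ih.mul hN
    have e : (n + 1) * N = n * N + N := by ring
    rw [e]
    exact this

/-- spectral gap at every point implies that some power has small `ℓ¹` norm -/
theorem exists_pow_ell1_lt {b : TwConv h} {ρ : ℝ} (hρ0 : 0 ≤ ρ) (hρ1 : ρ < 1)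
    (hb : ∀ x, ‖T h x b‖ ≤ ρ) : ∃ n : ℕ, ell1 (b ^ n) < 1 := by
  obtain ⟨N, hN⟩ := exists_band b
  have h1 : ∀ n : ℕ, ell1 (b ^ n) ≤ (2 * (n * N) + 1) * ρ ^ n := by
    intro n
    rw [ell1_eq (hN.pow n)]
    have hcf : ∀ m, ‖cf (b ^ n) m‖ ≤ ρ ^ n := by
      intro m
      refine norm_cf_le_of_norm_T_le (fun x => ?_) (by positivity) m
      rw [map_pow]
      rcases Nat.eq_zero_or_pos n with rfl | hn
      · rw [pow_zero, pow_zero]
        exact ContinuousLinearMap.norm_id_le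
      · exact (norm_pow_le' _ hn).trans (pow_le_pow_left₀ (norm_nonneg _) (hb x) n)
    refine (Finset.sum_le_card_nsmul _ _ _ fun m _ => hcf m).trans ?_
    rw [Int.card_Icc, nsmul_eq_mul]
    have : (((n * N : ℕ) : ℤ) + 1 - -((n * N : ℕ) : ℤ)).toNat = 2 * (n * N) + 1 := by omega
    rw [this]; push_cast; rfl
  have h2 : Tendsto (fun n : ℕ => (2 * (n * N) + 1) * ρ ^ n) atTop (𝓝 0) := by
    have h3 := (tendsto_self_mul_const_pow_of_lt_one hρ0 hρ1).const_mul (2 * (N : ℝ))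
    have h4 := tendsto_pow_atTop_nhds_zero_of_lt_one hρ0 hρ1
    have h5 := h3.add h4
    simp only [mul_zero, add_zero] at h5
    refine h5.congr fun n => ?_
    ring
  obtain ⟨n, hn⟩ := (h2.eventually (gt_mem_nhds zero_lt_one)).exists
  exact ⟨n, (h1 n).trans_lt hn⟩

section Banach

variable {B : Type*} [NormedRing B] [CompleteSpace B] (ι : TwConv h →+* B)
  (hι : ∀ a, ‖ι a‖ ≤ ell1 a)

include hι

theorem isUnit_one_sub_of_gap {b : TwConv h} {ρ : ℝ} (hρ0 : 0 ≤ ρ) (hρ1 : ρ < 1)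
    (hb : ∀ x, ‖T h x b‖ ≤ ρ) : IsUnit (1 - ι b) := by
  obtain ⟨n, hn⟩ := exists_pow_ell1_lt hρ0 hρ1 hb
  have h1 : ‖ι b ^ n‖ < 1 := by
    rw [← map_pow]
    exact (hι _).trans_lt hn
  have h2 : IsUnit (1 - ι b ^ n) := isUnit_one_sub_of_norm_lt_one h1
  have h3 : (1 - ι b) * (∑ i ∈ Finset.range n, ι b ^ i) = 1 - ι b ^ n := mul_neg_geom_sum _ _
  have hcomm : Commute (1 - ι b) (∑ i ∈ Finset.range n, ι b ^ i) := by
    refine Commute.sum_right _ _ _ fun i _ => ?_
    exact ((Commute.one_left _).sub_left (Commute.self_pow _ _))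
  rw [← h3] at h2
  exact (hcomm.isUnit_mul_iff.mp h2).1

/-- If `a` is uniformly bounded below, then `a* a` is invertible in every Banach algebra
completion of the twisted convolution algebra dominated by the `ℓ¹` norm. -/
theorem isUnit_adj_mul [Nonempty X] {a : TwConv h} {c : ℝ} (hc : 0 < c)
    (H : ∀ (x : X) (ξ : lp (fun _ : ℤ => ℂ) 2), c * ‖ξ‖ ^ 2 ≤ ‖T h x a ξ‖ ^ 2) :
    IsUnit (ι (adj a) * ι a) := by
  obtain ⟨K, hK⟩ : ∃ K : ℝ, K = ell1 a ^ 2 + c + 1 := ⟨_, rfl⟩
  have hK0 : 0 < K := by rw [hK]; positivity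
  have hKa : ell1 a ^ 2 ≤ K := by rw [hK]; linarith
  have hKc : c < K := by rw [hK]; have := sq_nonneg (ell1 a); linarith
  let s : TwConv h := S h 0 (ContinuousMap.const X ((K⁻¹ : ℝ) : ℂ))
  let b : TwConv h := 1 - s * (adj a * a)
  have hTs : ∀ x, T h x s = ((K⁻¹ : ℝ) : ℂ) • (1 : lp (fun _ : ℤ => ℂ) 2 →L[ℂ] _) := by
    intro x
    ext ξ n
    simp only [s]
    rw [T_S]
    simp
  have hTb : ∀ x ξ, T h x b ξ = ξ - ((K⁻¹ : ℝ) : ℂ) •
      ContinuousLinearMap.adjoint (T h x a) (T h x a ξ) := by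
    intro x ξ
    simp only [b]
    rw [map_sub, map_one, map_mul, map_mul, hTs, T_adj]
    simp
  have hform : ∀ x ξ, inner ℂ (T h x b ξ) ξ =
      ((‖ξ‖ ^ 2 - K⁻¹ * ‖T h x a ξ‖ ^ 2 : ℝ) : ℂ) := by
    intro x ξ
    rw [hTb, inner_sub_left, inner_smul_left, ContinuousLinearMap.adjoint_inner_left,
      inner_self_eq_norm_sq_to_K, inner_self_eq_norm_sq_to_K, Complex.conj_ofReal]
    push_cast
    rfl
  have hgap : ∀ x, ‖T h x b‖ ≤ 1 - c / K := by
    intro x
    have hnT : ∀ ξ, ‖T h x a ξ‖ ^ 2 ≤ K * ‖ξ‖ ^ 2 := by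
      intro ξ
      have h1 : ‖T h x a ξ‖ ≤ ell1 a * ‖ξ‖ := (T h x a).le_of_opNorm_le (norm_T_le x a) ξ
      calc ‖T h x a ξ‖ ^ 2 ≤ (ell1 a * ‖ξ‖) ^ 2 := by gcongr
        _ = ell1 a ^ 2 * ‖ξ‖ ^ 2 := by ring
        _ ≤ _ := by gcongr
    apply opNorm_le_of_form
    · rw [sub_nonneg, div_le_one hK0]; exact hKc.le
    · rw [ContinuousLinearMap.isPositive_iff_complex]
      intro ξ
      rw [hform]
      refine ⟨by rw [RCLike.re_to_complex, Complex.ofReal_re], ?_⟩
      have := hnT ξ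
      simp only [RCLike.re_to_complex, Complex.ofReal_re]
      rw [sub_nonneg, inv_mul_le_iff₀ hK0]
      exact this
    · intro ξ
      rw [hform]
      have := H x ξ
      simp only [RCLike.re_to_complex, Complex.ofReal_re]
      have h2 : c / K * ‖ξ‖ ^ 2 ≤ K⁻¹ * ‖T h x a ξ‖ ^ 2 := by
        rw [div_eq_inv_mul, mul_assoc]
        gcongr
      linarith
  have hu := isUnit_one_sub_of_gap ι hι (b := b) (ρ := 1 - c / K)
    (by rw [sub_nonneg, div_le_one hK0]; exact hKc.le)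
    (by have : 0 < c / K := by positivity
        linarith) hgap
  have e : 1 - ι b = ι s * (ι (adj a) * ι a) := by
    simp only [b]
    rw [map_sub, map_one, map_mul, map_mul]
    abel
  rw [e] at hu
  have hs : IsUnit (ι s) := by
    have : IsUnit s := by
      refine ⟨⟨s, S h 0 (ContinuousMap.const X ((K : ℝ) : ℂ)), ?_, ?_⟩, rfl⟩
      · simp only [s]
        rw [S_mul_S]
        have : (ContinuousMap.const X ((K⁻¹ : ℝ) : ℂ)) *
            alphaPow h 0 (ContinuousMap.const X ((K : ℝ) : ℂ)) = 1 := by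
          ext x
          simp [hK0.ne']
        rw [this]; rfl
      · simp only [s]
        rw [S_mul_S]
        have : (ContinuousMap.const X ((K : ℝ) : ℂ)) *
            alphaPow h 0 (ContinuousMap.const X ((K⁻¹ : ℝ) : ℂ)) = 1 := by
          ext x
          simp [hK0.ne']
        rw [this]; rfl
    exact this.map ι
  obtain ⟨u, hu'⟩ := hs
  rw [← hu', Units.isUnit_units_mul] at hu
  exact hu

/-- **Main theorem.** Units are dense in every Banach algebra completion of the twisted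
convolution algebra that is dominated by the `ℓ¹` norm. -/
theorem dense_isUnit [Nonempty X] [T2Space X] (hd : GoodDyn h) (hr : DenseRange ι) :
    Dense {b : B | IsUnit b} := by
  have key : ∀ a : TwConv h, ι a ∈ closure {b : B | IsUnit b} := by
    intro a
    obtain ⟨N, hN⟩ := exists_band a
    obtain ⟨M, hM⟩ := exists_band (adj a)
    have happ : AppU a → ι a ∈ closure {b : B | IsUnit b} := by
      intro H
      rw [Metric.mem_closure_iff]
      intro ε hε
      obtain ⟨b, hb, hab⟩ := H ε hε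
      refine ⟨ι b, hb.map ι, ?_⟩
      rw [dist_eq_norm, ← map_sub]
      exact (hι _).trans_lt hab
    rcases dichotomy hN with ⟨c, hc, H⟩ | H
    · rcases dichotomy hM with ⟨c', hc', H'⟩ | H'
      · apply subset_closure
        have h1 := isUnit_adj_mul ι hι hc H
        have h2 := isUnit_adj_mul ι hι hc' H'
        rw [adj_adj] at h2
        obtain ⟨u, hu⟩ := h1
        obtain ⟨v, hv⟩ := h2
        have hl : (↑u⁻¹ * ι (adj a)) * ι a = 1 := by
          rw [mul_assoc, ← hu, Units.inv_mul]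
        have hrt : ι a * (ι (adj a) * ↑v⁻¹) = 1 := by
          rw [← mul_assoc, ← hv, Units.mul_inv]
        exact isUnit_iff_exists_and_exists.mpr ⟨⟨_, hrt⟩, ⟨_, hl⟩⟩
      · exact happ (appU_of_approx_null hd hM H').of_adj
    · exact happ (appU_of_approx_null hd hN H)
  intro b
  exact closure_minimal (Set.range_subset_iff.mpr key) isClosed_closure (hr b)

end Banach

end Pool.Agent.W_MP_3ad462_an
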