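import Mathlib

open MeasureTheory
open scoped ENNReal

namespace Pool.Agent.W_MP_3ad462_an

/-! ### The dynamical system and the twisted convolution algebra -/

section Algebra

variable {X : Type*} [TopologicalSpace X]

/-- `alphaPow h n f = f ∘ h⁻ⁿ`, the `n`-th power of the automorphism `α(f) = f ∘ h⁻¹` of `C(X)`. -/
noncomputable def alphaPow (h : X ≃ₜ X) (n : ℤ) (f : C(X, ℂ)) : C(X, ℂ) :=
  f.comp ⟨fun x => (h ^ (-n)) x, (h ^ (-n)).continuous⟩

@[simp] theorem alphaPow_apply (h : X ≃ₜ X) (n : ℤ) (f : C(X, ℂ)) (x : X) :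
    alphaPow h n f x = f ((h ^ (-n)) x) := rfl

theorem alphaPow_add (h : X ≃ₜ X) (m n : ℤ) (f : C(X, ℂ)) :
    alphaPow h (m + n) f = alphaPow h m (alphaPow h n f) := by
  ext x
  simp only [alphaPow_apply]
  rw [neg_add_rev, zpow_add]
  rfl

/-- The group `ℤ` acts on `C(X)` by the powers of `α`. -/
@[reducible] noncomputable def zAction (h : X ≃ₜ X) :
    MulSemiringAction (Multiplicative ℤ) C(X, ℂ) where
  smul n f := alphaPow h n.toAdd f
  one_smul _ := ContinuousMap.ext fun _ => rfl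
  mul_smul m n f := alphaPow_add h m.toAdd n.toAdd f
  smul_zero _ := ContinuousMap.ext fun _ => rfl
  smul_add _ _ _ := ContinuousMap.ext fun _ => rfl
  smul_one _ := ContinuousMap.ext fun _ => rfl
  smul_mul _ _ _ := ContinuousMap.ext fun _ => rfl

/-- The twisted convolution algebra of finitely supported functions `ℤ → C(X)`. The element
`single n f` is `f uⁿ`. -/
@[implicit_reducible] def TwConv (_h : X ≃ₜ X) : Type _ :=
  SkewMonoidAlgebra C(X, ℂ) (Multiplicative ℤ)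

/-- The product of the twisted convolution algebra is determined by
`(f uᵐ) (g uⁿ) = f (g ∘ h⁻ᵐ) uᵐ⁺ⁿ`. -/
noncomputable instance (h : X ≃ₜ X) : Ring (TwConv h) :=
  @SkewMonoidAlgebra.instRing C(X, ℂ) (Multiplicative ℤ) _ _ (zAction h)

end Algebra

/-! ### Operators on `ℓᵖ(ℤ, E)` -/

section Operators

/-- The Banach space `ℓᵖ(ℤ, E)`. -/
def Ell (p : ℝ≥0∞) (E : Type*) [NormedAddCommGroup E] : Type _ := lp (fun _ : ℤ => E) p

variable {E : Type*} [NormedAddCommGroup E]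

noncomputable instance (p : ℝ≥0∞) [Fact (1 ≤ p)] : NormedAddCommGroup (Ell p E) :=
  lp.normedAddCommGroup (E := fun _ : ℤ => E) (p := p)

noncomputable instance (p : ℝ≥0∞) [Fact (1 ≤ p)] [NormedSpace ℂ E] : NormedSpace ℂ (Ell p E) :=
  lp.instNormedSpace (E := fun _ : ℤ => E) (p := p)

/-- The `n`-th entry of an element of `ℓᵖ(ℤ, E)`. -/
def Ell.entry {p : ℝ≥0∞} (ξ : Ell p E) (n : ℤ) : E :=
  (show lp (fun _ : ℤ => E) p from ξ) n

/-- The element of `ℓᵖ(ℤ, E)` with given entries. -/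
def Ell.mk {p : ℝ≥0∞} (f : ℤ → E) (hf : Memℓp f p) : Ell p E :=
  (⟨f, hf⟩ : lp (fun _ : ℤ => E) p)

theorem Ell.memℓp {p : ℝ≥0∞} (ξ : Ell p E) : Memℓp ξ.entry p := lp.memℓp _

theorem Ell.ext {p : ℝ≥0∞} {ξ η : Ell p E} (H : ∀ n, ξ.entry n = η.entry n) : ξ = η :=
  lp.ext (funext H)

/-- Membership in `ℓᵖ` is preserved by translation of the index. -/
theorem memℓp_shift {p : ℝ≥0∞} (m : ℤ) {f : ℤ → E} (hf : Memℓp f p) :
    Memℓp (fun n => f (n - m)) p := by
  obtain (rfl | rfl | hp) := p.trichotomy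
  · rw [memℓp_zero_iff] at hf ⊢
    exact hf.preimage ((Equiv.subRight m).injective.injOn)
  · rw [memℓp_infty_iff] at hf ⊢
    refine hf.mono ?_
    rintro _ ⟨n, rfl⟩
    exact ⟨n - m, rfl⟩
  · rw [memℓp_gen_iff hp] at hf ⊢
    exact hf.comp_injective (sub_left_injective (b := m))

theorem norm_shift_le {p : ℝ≥0∞} [Fact (1 ≤ p)] (m : ℤ) (ξ : Ell p E) :
    ‖Ell.mk (fun n => ξ.entry (n - m)) (memℓp_shift m ξ.memℓp)‖ ≤ ‖ξ‖ := by
  have hp0 : p ≠ 0 := (zero_lt_one.trans_le Fact.out).ne'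
  obtain (rfl | rfl | hp) := p.trichotomy
  · exact absurd rfl hp0
  · exact lp.norm_le_of_forall_le (norm_nonneg _)
      fun i => lp.norm_apply_le_norm hp0 (show lp (fun _ : ℤ => E) _ from ξ) _
  · refine lp.norm_le_of_tsum_le hp (norm_nonneg _) ?_
    have h1 := lp.norm_rpow_eq_tsum hp (show lp (fun _ : ℤ => E) p from ξ)
    refine le_of_eq (Eq.trans ?_ h1.symm)
    exact (Equiv.subRight m).tsum_eq (fun n => ‖ξ.entry n‖ ^ p.toReal)

variable [NormedSpace ℂ E]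

/-- The Banach algebra of bounded operators on `ℓᵖ(ℤ, E)`, with the operator norm. -/
@[implicit_reducible] def Op (p : ℝ≥0∞) [Fact (1 ≤ p)] (E : Type*) [NormedAddCommGroup E]
    [NormedSpace ℂ E] : Type _ :=
  Ell p E →L[ℂ] Ell p E

noncomputable instance (p : ℝ≥0∞) [Fact (1 ≤ p)] : NormedRing (Op p E) :=
  ContinuousLinearMap.toNormedRing (𝕜 := ℂ) (E := Ell p E)

/-- Application of an operator to a vector. -/
noncomputable def Op.app {p : ℝ≥0∞} [Fact (1 ≤ p)] (A : Op p E) (ξ : Ell p E) : Ell p E :=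
  (show Ell p E →L[ℂ] Ell p E from A) ξ

theorem Op.ext {p : ℝ≥0∞} [Fact (1 ≤ p)] {A B : Op p E}
    (H : ∀ ξ n, (A.app ξ).entry n = (B.app ξ).entry n) : A = B :=
  ContinuousLinearMap.ext (f := (show Ell p E →L[ℂ] Ell p E from A)) fun ξ => Ell.ext (H ξ)

/-- The translation operator `(u_m ξ)(n) = ξ(n - m)` on `ℓᵖ(ℤ, E)`. -/
noncomputable def shiftOp (p : ℝ≥0∞) [Fact (1 ≤ p)] (E : Type*) [NormedAddCommGroup E]
    [NormedSpace ℂ E] (m : ℤ) : Op p E :=
  LinearMap.mkContinuous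
    { toFun := fun ξ => Ell.mk (fun n => ξ.entry (n - m)) (memℓp_shift m ξ.memℓp)
      map_add' := fun _ _ => rfl
      map_smul' := fun _ _ => rfl } 1
    (fun ξ => (norm_shift_le m ξ).trans (one_mul ‖ξ‖).ge)

theorem memℓp_diag {p : ℝ≥0∞} {T : ℤ → E →L[ℂ] E} {C : ℝ} (hT : ∀ n, ‖T n‖ ≤ C)
    {f : ℤ → E} (hf : Memℓp f p) : Memℓp (fun n => T n (f n)) p :=
  (hf.norm.const_mul C).mono fun n => (T n).le_of_opNorm_le (hT n) (f n)

theorem norm_diag_le {p : ℝ≥0∞} [Fact (1 ≤ p)] {T : ℤ → E →L[ℂ] E} {C : ℝ}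
    (hT : ∀ n, ‖T n‖ ≤ C) (ξ : Ell p E) :
    ‖Ell.mk (fun n => T n (ξ.entry n)) (memℓp_diag hT ξ.memℓp)‖ ≤ C * ‖ξ‖ := by
  have hC : 0 ≤ C := (norm_nonneg _).trans (hT 0)
  have hp0 : p ≠ 0 := (zero_lt_one.trans_le Fact.out).ne'
  have h1 : ‖Ell.mk (fun n => T n (ξ.entry n)) (memℓp_diag hT ξ.memℓp)‖ ≤ ‖(C : ℂ) • ξ‖ := by
    refine lp.norm_mono (E := fun _ : ℤ => E) (F := fun _ : ℤ => E) hp0 fun n => ?_
    have h2 : ‖((C : ℂ) • ξ).entry n‖ = C * ‖ξ.entry n‖ := by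
      change ‖(C : ℂ) • ξ.entry n‖ = _
      rw [norm_smul, Complex.norm_real, Real.norm_eq_abs, abs_of_nonneg hC]
    exact ((T n).le_of_opNorm_le (hT n) (ξ.entry n)).trans h2.ge
  refine h1.trans ?_
  rw [norm_smul, Complex.norm_real, Real.norm_eq_abs, abs_of_nonneg hC]

/-- The diagonal operator `(D ξ)(n) = T n (ξ n)` on `ℓᵖ(ℤ, E)`, for a bounded family `T`. -/
noncomputable def diagOp (p : ℝ≥0∞) [Fact (1 ≤ p)] (T : ℤ → E →L[ℂ] E) (C : ℝ)
    (hT : ∀ n, ‖T n‖ ≤ C) : Op p E :=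
  LinearMap.mkContinuous
    { toFun := fun ξ => Ell.mk (fun n => T n (ξ.entry n)) (memℓp_diag hT ξ.memℓp)
      map_add' := fun ξ η => Ell.ext fun n => (T n).map_add (ξ.entry n) (η.entry n)
      map_smul' := fun c ξ => Ell.ext fun n => (T n).map_smul c (ξ.entry n) } C
    (norm_diag_le hT)

theorem shiftOp_apply {p : ℝ≥0∞} [Fact (1 ≤ p)] (m : ℤ) (ξ : Ell p E)
    (n : ℤ) : ((shiftOp p E m).app ξ).entry n = ξ.entry (n - m) := rfl

theorem diagOp_apply {p : ℝ≥0∞} [Fact (1 ≤ p)] (T : ℤ → E →L[ℂ] E) (C : ℝ)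
    (hT : ∀ n, ‖T n‖ ≤ C) (ξ : Ell p E) (n : ℤ) :
    ((diagOp p T C hT).app ξ).entry n = T n (ξ.entry n) := rfl

end Operators

/-! ### Representations and the reduced crossed product -/

section Crossed

variable {X : Type*} [TopologicalSpace X] [CompactSpace X]

/-- A contractive unital representation of `C(X)` on a Banach space `E`. -/
structure Rep (X : Type*) [TopologicalSpace X] [CompactSpace X]
    (E : Type*) [NormedAddCommGroup E] [NormedSpace ℂ E] where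
  /-- the underlying unital algebra homomorphism `C(X) → B(E)` -/
  toHom : C(X, ℂ) →ₐ[ℂ] (E →L[ℂ] E)
  /-- the representation is contractive -/
  contractive : ∀ f : C(X, ℂ), ‖toHom f‖ ≤ ‖f‖

theorem norm_alphaPow_le (h : X ≃ₜ X) (n : ℤ) (f : C(X, ℂ)) : ‖alphaPow h n f‖ ≤ ‖f‖ := by
  rw [ContinuousMap.norm_le _ (norm_nonneg _)]
  intro x
  exact f.norm_coe_le_norm _

theorem Rep.norm_alphaPow_le {E : Type*} [NormedAddCommGroup E] [NormedSpace ℂ E]
    (π : Rep X E) (h : X ≃ₜ X) (f : C(X, ℂ)) (n : ℤ) : ‖π.toHom (alphaPow h (-n) f)‖ ≤ ‖f‖ :=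
  (π.contractive _).trans (W_MP_3ad462_an.norm_alphaPow_le h (-n) f)

/-- The operator `π̃(f)` on `ℓᵖ(ℤ, E)`: `(π̃(f) ξ)(n) = π(α⁻ⁿ(f)) (ξ(n))`. -/
noncomputable def Rep.tilde {E : Type*} [NormedAddCommGroup E] [NormedSpace ℂ E]
    (π : Rep X E) (h : X ≃ₜ X) (p : ℝ≥0∞) [Fact (1 ≤ p)] (f : C(X, ℂ)) : Op p E :=
  diagOp p (fun n => π.toHom (alphaPow h (-n) f)) ‖f‖ (π.norm_alphaPow_le h f)

/-- The integrated form `a ↦ ∑ₘ π̃(a(m)) uₘ` on the twisted convolution algebra. -/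
noncomputable def Rep.integrated {E : Type*} [NormedAddCommGroup E] [NormedSpace ℂ E]
    (π : Rep X E) (h : X ≃ₜ X) (p : ℝ≥0∞) [Fact (1 ≤ p)] (a : TwConv h) : Op p E :=
  SkewMonoidAlgebra.sum a fun m f => π.tilde h p f * shiftOp p E m.toAdd

section IntegratedLemmas

variable {E : Type*} [NormedAddCommGroup E] [NormedSpace ℂ E] (π : Rep X E) (h : X ≃ₜ X)
  (p : ℝ≥0∞) [Fact (1 ≤ p)]

/-- The shift operators as a monoid homomorphism. -/
noncomputable def shiftHom (p : ℝ≥0∞) [Fact (1 ≤ p)] (E : Type*) [NormedAddCommGroup E]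
    [NormedSpace ℂ E] : Multiplicative ℤ →* Op p E where
  toFun m := shiftOp p E m.toAdd
  map_one' := by
    refine Op.ext fun ξ n => ?_
    change ξ.entry (n - 0) = ξ.entry n
    rw [sub_zero]
  map_mul' m k := by
    refine Op.ext fun ξ n => ?_
    change ξ.entry (n - (m.toAdd + k.toAdd)) = ξ.entry (n - m.toAdd - k.toAdd)
    rw [sub_sub]

/-- The operators `π̃(f)` as a ring homomorphism. -/
noncomputable def Rep.tildeHom : C(X, ℂ) →+* Op p E where
  toFun f := π.tilde h p f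
  map_one' := by
    refine Op.ext fun ξ n => ?_
    change π.toHom (alphaPow h (-n) 1) (ξ.entry n) = ξ.entry n
    have : alphaPow h (-n) (1 : C(X, ℂ)) = 1 := rfl
    rw [this, map_one]; rfl
  map_mul' f g := by
    refine Op.ext fun ξ n => ?_
    change π.toHom (alphaPow h (-n) (f * g)) (ξ.entry n) =
      π.toHom (alphaPow h (-n) f) (π.toHom (alphaPow h (-n) g) (ξ.entry n))
    have : alphaPow h (-n) (f * g) = alphaPow h (-n) f * alphaPow h (-n) g := rfl
    rw [this, map_mul]; rfl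
  map_zero' := by
    refine Op.ext fun ξ n => ?_
    change π.toHom (alphaPow h (-n) 0) (ξ.entry n) = 0
    have : alphaPow h (-n) (0 : C(X, ℂ)) = 0 := rfl
    rw [this, map_zero]; rfl
  map_add' f g := by
    refine Op.ext fun ξ n => ?_
    change π.toHom (alphaPow h (-n) (f + g)) (ξ.entry n) =
      π.toHom (alphaPow h (-n) f) (ξ.entry n) + (π.toHom (alphaPow h (-n) g) (ξ.entry n))
    have : alphaPow h (-n) (f + g) = alphaPow h (-n) f + alphaPow h (-n) g := rfl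
    rw [this, map_add]; rfl

/-- The covariance relation `π̃(αᵐ f) u_m = u_m π̃(f)`. -/
theorem Rep.covariance (f : C(X, ℂ)) (m : ℤ) :
    π.tilde h p (alphaPow h m f) * shiftOp p E m = shiftOp p E m * π.tilde h p f := by
  refine Op.ext fun ξ n => ?_
  change π.toHom (alphaPow h (-n) (alphaPow h m f)) (ξ.entry (n - m)) =
    π.toHom (alphaPow h (-(n - m)) f) (ξ.entry (n - m))
  have e : -n + m = -(n - m) := by ring
  rw [← alphaPow_add, e]

/-- The integrated form as a ring homomorphism. -/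
noncomputable def Rep.integratedHom : TwConv h →+* Op p E :=
  @SkewMonoidAlgebra.liftNCRingHom C(X, ℂ) (Multiplicative ℤ) _ _ (zAction h) _ _
    (π.tildeHom h p) (shiftHom p E) (fun {x y} => π.covariance h p x y.toAdd)

theorem Rep.integratedHom_apply (a : TwConv h) : π.integratedHom h p a = π.integrated h p a := by
  let _ := zAction h
  change SkewMonoidAlgebra.liftNCRingHom (π.tildeHom h p) (shiftHom p E)
    (fun {x y} => π.covariance h p x y.toAdd) (show SkewMonoidAlgebra C(X, ℂ) (Multiplicative ℤ)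
      from a) = _
  induction (show SkewMonoidAlgebra C(X, ℂ) (Multiplicative ℤ) from a) using
    SkewMonoidAlgebra.induction_on' with
  | single m f =>
    rw [Rep.integrated, SkewMonoidAlgebra.sum_single_index]
    · exact SkewMonoidAlgebra.liftNC_single ((π.tildeHom h p : C(X, ℂ) →+* _) : C(X, ℂ) →+ _)
        (shiftHom p E) m f
    · change π.tildeHom h p 0 * _ = 0
      rw [map_zero, zero_mul]
  | add a b ha hb =>
    rw [map_add, ha, hb, Rep.integrated, Rep.integrated, Rep.integrated,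
      SkewMonoidAlgebra.sum_add_index']
    · intro m
      change π.tildeHom h p 0 * _ = 0
      rw [map_zero, zero_mul]
    · intro m f g
      change π.tildeHom h p (f + g) * _ = π.tildeHom h p f * _ + π.tildeHom h p g * _
      rw [map_add, add_mul]

end IntegratedLemmas

/-- The `ℓ¹`-norm on the twisted convolution algebra. -/
noncomputable def ell1 {h : X ≃ₜ X} (a : TwConv h) : ℝ :=
  SkewMonoidAlgebra.sum (k := C(X, ℂ)) (G := Multiplicative ℤ) a fun _ f => ‖f‖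

theorem norm_shiftOp_le {E : Type*} [NormedAddCommGroup E] [NormedSpace ℂ E] (p : ℝ≥0∞)
    [Fact (1 ≤ p)] (m : ℤ) : ‖shiftOp p E m‖ ≤ 1 :=
  LinearMap.mkContinuous_norm_le _ zero_le_one _

theorem norm_diagOp_le {E : Type*} [NormedAddCommGroup E] [NormedSpace ℂ E] (p : ℝ≥0∞)
    [Fact (1 ≤ p)] (T : ℤ → E →L[ℂ] E) (C : ℝ) (hT : ∀ n, ‖T n‖ ≤ C) : ‖diagOp p T C hT‖ ≤ C :=
  LinearMap.mkContinuous_norm_le _ ((norm_nonneg _).trans (hT 0)) _

theorem Rep.norm_tilde_le {E : Type*} [NormedAddCommGroup E] [NormedSpace ℂ E] (π : Rep X E)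
    (h : X ≃ₜ X) (p : ℝ≥0∞) [Fact (1 ≤ p)] (f : C(X, ℂ)) : ‖π.tilde h p f‖ ≤ ‖f‖ :=
  norm_diagOp_le p _ _ _

theorem Rep.norm_integrated_le {E : Type*} [NormedAddCommGroup E] [NormedSpace ℂ E] (π : Rep X E)
    (h : X ≃ₜ X) (p : ℝ≥0∞) [Fact (1 ≤ p)] (a : TwConv h) : ‖π.integrated h p a‖ ≤ ell1 a := by
  rw [Rep.integrated, ell1, SkewMonoidAlgebra.sum_def, SkewMonoidAlgebra.sum_def]
  refine (norm_sum_le _ _).trans (Finset.sum_le_sum fun m _ => ?_)
  refine (norm_mul_le _ _).trans ?_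
  exact (mul_le_mul (π.norm_tilde_le h p _) (norm_shiftOp_le p _) (norm_nonneg _)
    (norm_nonneg _)).trans (mul_one _).le

/-- The operator norm of the integrated form. -/
noncomputable def Rep.inorm {E : Type*} [NormedAddCommGroup E] [NormedSpace ℂ E]
    (π : Rep X E) (h : X ≃ₜ X) (p : ℝ≥0∞) [Fact (1 ≤ p)] (a : TwConv h) : ℝ :=
  ‖π.integrated h p a‖

/-- A contractive unital representation of `C(X)` on some `Lᵖ(Ω, μ)` with `μ` σ-finite. -/
structure LpRep (p : ℝ≥0∞) [Fact (1 ≤ p)] (X : Type*) [TopologicalSpace X] [CompactSpace X] where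
  /-- the underlying set of the measure space -/
  Ω : Type
  /-- the σ-algebra -/
  [mΩ : MeasurableSpace Ω]
  /-- the measure -/
  μ : Measure Ω
  /-- the measure is σ-finite -/
  [sf : SigmaFinite μ]
  /-- the representation of `C(X)` on `Lᵖ(Ω, μ)` -/
  π : Rep X (Lp ℂ p μ)

/-- The reduced norm `‖a‖_r = sup_π ‖∑ₘ π̃(a(m)) uₘ‖`. -/
noncomputable def rnorm (p : ℝ≥0∞) [Fact (1 ≤ p)] (h : X ≃ₜ X) (a : TwConv h) : ℝ :=
  ⨆ ρ : LpRep p X, ρ.π.inorm h p a

theorem rnorm_bddAbove (p : ℝ≥0∞) [Fact (1 ≤ p)] (h : X ≃ₜ X) (a : TwConv h) :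
    BddAbove (Set.range fun ρ : LpRep p X => ‖ρ.π.integrated h p a‖) :=
  ⟨ell1 a, by rintro _ ⟨ρ, rfl⟩; exact ρ.π.norm_integrated_le h p a⟩

theorem le_rnorm (p : ℝ≥0∞) [Fact (1 ≤ p)] (h : X ≃ₜ X) (a : TwConv h) (ρ : LpRep p X) :
    ‖ρ.π.integrated h p a‖ ≤ rnorm p h a :=
  le_ciSup (rnorm_bddAbove p h a) ρ

theorem rnorm_nonneg (p : ℝ≥0∞) [Fact (1 ≤ p)] (h : X ≃ₜ X) (a : TwConv h) : 0 ≤ rnorm p h a :=
  Real.iSup_nonneg fun _ => norm_nonneg _

theorem rnorm_le (p : ℝ≥0∞) [Fact (1 ≤ p)] (h : X ≃ₜ X) (a : TwConv h) {C : ℝ} (hC : 0 ≤ C)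
    (H : ∀ ρ : LpRep p X, ‖ρ.π.integrated h p a‖ ≤ C) : rnorm p h a ≤ C :=
  Real.iSup_le H hC

/-- The reduced norm as a ring seminorm on the twisted convolution algebra. -/
noncomputable def rseminorm (p : ℝ≥0∞) [Fact (1 ≤ p)] (h : X ≃ₜ X) : RingSeminorm (TwConv h) where
  toFun := rnorm p h
  map_zero' := le_antisymm (rnorm_le p h 0 le_rfl fun ρ => by
    rw [← ρ.π.integratedHom_apply, map_zero, norm_zero]) (rnorm_nonneg p h 0)
  add_le' a b := rnorm_le p h _ (add_nonneg (rnorm_nonneg p h a) (rnorm_nonneg p h b)) fun ρ => by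
    rw [← ρ.π.integratedHom_apply, map_add, ρ.π.integratedHom_apply, ρ.π.integratedHom_apply]
    exact (norm_add_le _ _).trans (add_le_add (le_rnorm p h a ρ) (le_rnorm p h b ρ))
  neg' a := by
    refine iSup_congr fun ρ => ?_
    unfold Rep.inorm
    rw [← ρ.π.integratedHom_apply, map_neg, ρ.π.integratedHom_apply, norm_neg]
  mul_le' a b := rnorm_le p h _ (mul_nonneg (rnorm_nonneg p h a) (rnorm_nonneg p h b)) fun ρ => by
    rw [← ρ.π.integratedHom_apply, map_mul, ρ.π.integratedHom_apply, ρ.π.integratedHom_apply]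
    exact (norm_mul_le _ _).trans
      (mul_le_mul (le_rnorm p h a ρ) (le_rnorm p h b ρ) (norm_nonneg _) (rnorm_nonneg p h a))

/-- The twisted convolution algebra, carrying the reduced norm. -/
def PreReduced (_p : ℝ≥0∞) [Fact (1 ≤ _p)] (h : X ≃ₜ X) : Type _ := TwConv h

noncomputable instance (p : ℝ≥0∞) [Fact (1 ≤ p)] (h : X ≃ₜ X) : SeminormedRing (PreReduced p h) :=
  (rseminorm p h).toSeminormedRing

/-- The reduced `Lᵖ` crossed product `F^p_r(ℤ, X, h)`: the completion of the twisted convolution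
algebra in the reduced norm. -/
abbrev FpReduced (p : ℝ≥0∞) [Fact (1 ≤ p)] (h : X ≃ₜ X) : Type _ :=
  UniformSpace.Completion (PreReduced p h)

end Crossed

/-- The rotation `z ↦ e^{2πiθ} z` of the circle. -/
noncomputable def rotation (θ : ℝ) : Circle ≃ₜ Circle :=
  Homeomorph.mulLeft (Circle.exp (2 * Real.pi * θ))

theorem rotation_apply (θ : ℝ) (z : Circle) :
    ((rotation θ z : Circle) : ℂ) = Complex.exp (2 * Real.pi * θ * Complex.I) * z := by
  simp [rotation, Circle.coe_exp]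

end Pool.Agent.W_MP_3ad462_an
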