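import Pool.Agent.W_MP_3ad462_an.Tent

open scoped ENNReal NNReal
open Topology

namespace Pool.Agent.W_MP_3ad462_an

variable {X : Type*} [TopologicalSpace X] [CompactSpace X] {h : X ≃ₜ X}

/-- The one-dimensional representation of `C(X)` given by evaluation at `x`. -/
noncomputable def evRep (x : X) : Rep X ℂ where
  toHom := (Algebra.ofId ℂ (ℂ →L[ℂ] ℂ)).comp (ContinuousMap.evalAlgHom ℂ ℂ x)
  contractive f := by
    change ‖algebraMap ℂ (ℂ →L[ℂ] ℂ) (f x)‖ ≤ ‖f‖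
    rw [norm_algebraMap']
    exact f.norm_coe_le_norm x

theorem evRep_apply (x : X) (f : C(X, ℂ)) (v : ℂ) : (evRep x).toHom f v = f x * v := by
  change algebraMap ℂ (ℂ →L[ℂ] ℂ) (f x) v = f x * v
  rw [ContinuousLinearMap.algebraMap_apply]; rfl

/-- The representation of the twisted convolution algebra on `ℓ²(ℤ)` at the point `x`. -/
noncomputable def T (h : X ≃ₜ X) (x : X) :
    TwConv h →+* (lp (fun _ : ℤ => ℂ) 2 →L[ℂ] lp (fun _ : ℤ => ℂ) 2) :=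
  (evRep x).integratedHom h 2

theorem T_S (x : X) (m : ℤ) (f : C(X, ℂ)) (ξ : lp (fun _ : ℤ => ℂ) 2) (n : ℤ) :
    T h x (S h m f) ξ n = f ((h ^ n) x) * ξ (n - m) := by
  have h1 : (evRep x).integratedHom h 2 (S h m f) =
      (evRep x).tilde h 2 f * shiftOp 2 ℂ m := by
    rw [Rep.integratedHom_apply]
    unfold Rep.integrated S
    rw [SkewMonoidAlgebra.sum_single_index]
    · rfl
    · change (evRep x).tildeHom h 2 0 * _ = 0
      rw [map_zero, zero_mul]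
  have h2 : (((evRep x).integratedHom h 2 (S h m f)).app (show Ell 2 ℂ from ξ)).entry n =
      (evRep x).toHom (alphaPow h (-n) f) (ξ (n - m)) := by
    rw [h1]; rfl
  refine Eq.trans h2 ?_
  rw [evRep_apply, alphaPow_apply, neg_neg]

theorem T_apply {a : TwConv h} {N : ℕ} (hN : Band a N) (x : X) (ξ : lp (fun _ : ℤ => ℂ) 2)
    (n : ℤ) : T h x a ξ n = act a N x ξ n := by
  conv_lhs => rw [eq_sum_S hN, map_sum, _root_.sum_apply, lp.coeFn_sum,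
    Finset.sum_apply]
  simp only [T_S]
  rfl

theorem norm_T_le (x : X) (a : TwConv h) : ‖T h x a‖ ≤ ell1 a := by
  have h1 : ‖(evRep x).integratedHom h 2 a‖ ≤ ell1 a := by
    rw [Rep.integratedHom_apply]
    exact Rep.norm_integrated_le _ _ _ _
  exact h1

theorem sq_lp (ξ : lp (fun _ : ℤ => ℂ) 2) : sq ξ = ENNReal.ofReal (‖ξ‖ ^ 2) := by
  have h2 : (0 : ℝ) < (2 : ℝ≥0∞).toReal := by norm_num
  have h3 := lp.hasSum_norm h2 ξ
  have e2 : (2 : ℝ≥0∞).toReal = 2 := by norm_num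
  rw [e2] at h3
  have h4 : HasSum (fun i => ‖ξ i‖ ^ 2) (‖ξ‖ ^ 2) := by
    simpa only [Real.rpow_two] using h3
  unfold sq
  rw [← h4.tsum_eq, ENNReal.ofReal_tsum_of_nonneg (fun _ => by positivity) h4.summable]

omit [CompactSpace X] in
theorem act_eq_sum {a : TwConv h} {N : ℕ} (hN : Band a N) (L : ℕ) (x : X) {η : ℤ → ℂ}
    (hη : ∀ i, (L : ℤ) < |i| → η i = 0) (n : ℤ) :
    act a N x η n = ∑ i ∈ Finset.Icc (-L : ℤ) L, cf a (n - i) ((h ^ n) x) * η i := by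
  unfold act
  have h1 : ∑' m : ℤ, cf a m ((h ^ n) x) * η (n - m) =
      ∑ m ∈ Finset.Icc (-N : ℤ) N, cf a m ((h ^ n) x) * η (n - m) := by
    refine tsum_eq_sum fun m hm => ?_
    rw [hN m (by rw [Finset.mem_Icc] at hm; rw [lt_abs]; omega)]
    simp
  have h2 : ∑' i : ℤ, cf a (n - i) ((h ^ n) x) * η i =
      ∑ i ∈ Finset.Icc (-L : ℤ) L, cf a (n - i) ((h ^ n) x) * η i := by
    refine tsum_eq_sum fun i hi => ?_
    rw [hη i (by rw [Finset.mem_Icc] at hi; rw [lt_abs]; omega), mul_zero]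
  rw [← h1, ← h2]
  have := (Equiv.subLeft n).tsum_eq (fun m => cf a m ((h ^ n) x) * η (n - m))
  rw [← this]
  refine tsum_congr fun i => ?_
  simp

theorem kap_ge (l : ℕ) : 2 * (l : ℝ) ^ 3 ≤ kap (2 * l) := by
  unfold kap
  calc 2 * (l : ℝ) ^ 3 ≤ (2 * l + 1) * (l : ℝ) ^ 2 := by nlinarith [sq_nonneg (l : ℝ)]
    _ = ∑ k ∈ Finset.Icc (-l : ℤ) l, (l : ℝ) ^ 2 := by
        rw [Finset.sum_const, Int.card_Icc, nsmul_eq_mul]
        have : ((l : ℤ) + 1 - -(l : ℤ)).toNat = 2 * l + 1 := by omega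
        rw [this]; push_cast; rfl
    _ ≤ ∑ k ∈ Finset.Icc (-l : ℤ) l, ((tent (2 * l) k : ℤ) : ℝ) ^ 2 := by
        refine Finset.sum_le_sum fun k hk => ?_
        have h1 : (l : ℤ) ≤ tent (2 * l) k := by
          rw [Finset.mem_Icc] at hk
          unfold tent
          have : |k| ≤ l := abs_le.mpr hk
          push_cast
          omega
        have h2 : (l : ℝ) ≤ (tent (2 * l) k : ℤ) := by exact_mod_cast h1
        gcongr
    _ ≤ ∑ k ∈ Finset.Icc (-((2 * l : ℕ) : ℤ)) ((2 * l : ℕ) : ℤ), ((tent (2 * l) k : ℤ) : ℝ) ^ 2 := by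
        refine Finset.sum_le_sum_of_subset_of_nonneg ?_ (fun _ _ _ => by positivity)
        apply Finset.Icc_subset_Icc <;> push_cast <;> omega

omit [CompactSpace X] in
/-- If `a` has no good approximate null vectors in windows of size `L`, then it is bounded below
on vectors supported in such windows. -/
theorem window_bound {a : TwConv h} {N : ℕ} (hN : Band a N) {ε₀ : ℝ} (hε₀ : 0 < ε₀) {L : ℕ}
    (H : ∀ (x₀ : X) (ξ : ℤ → ℂ), ∑ i ∈ Finset.Icc (-L : ℤ) L, ‖ξ i‖ ^ 2 = 1 →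
      ε₀ ≤ (4 * L + 2 * N + 1 : ℝ) * ∑ n ∈ Finset.Icc (-(L + N : ℤ)) (L + N),
        ‖∑ i ∈ Finset.Icc (-L : ℤ) L, cf a (n - i) ((h ^ n) x₀) * ξ i‖ ^ 2)
    (x : X) {η : ℤ → ℂ} (hη : ∀ i, (L : ℤ) < |i| → η i = 0) :
    ENNReal.ofReal (ε₀ / (4 * L + 2 * N + 1)) * sq η ≤ sq (act a N x η) := by
  obtain ⟨s, hs⟩ : ∃ s, s = ∑ i ∈ Finset.Icc (-L : ℤ) L, ‖η i‖ ^ 2 := ⟨_, rfl⟩
  have hs0 : 0 ≤ s := by rw [hs]; positivity
  have hsq : sq η = ENNReal.ofReal s := by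
    unfold sq
    rw [tsum_eq_sum (s := Finset.Icc (-L : ℤ) L), hs,
      ENNReal.ofReal_sum_of_nonneg (fun i _ => by positivity)]
    intro i hi
    rw [hη i (by rw [Finset.mem_Icc] at hi; rw [lt_abs]; omega)]
    simp
  rcases hs0.eq_or_lt with h0 | hpos
  · rw [hsq, ← h0]; simp
  have hsqrt : 0 < Real.sqrt s := Real.sqrt_pos.mpr hpos
  have hss : Real.sqrt s ^ 2 = s := Real.sq_sqrt hs0
  have key := H x (fun i => ((Real.sqrt s)⁻¹ : ℝ) * η i) (by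
    have : ∀ i, ‖(((Real.sqrt s)⁻¹ : ℝ) : ℂ) * η i‖ ^ 2 = s⁻¹ * ‖η i‖ ^ 2 := by
      intro i
      rw [norm_mul, mul_pow, Complex.norm_real, norm_inv, inv_pow, Real.norm_eq_abs, sq_abs, hss]
    simp only [this]
    rw [← Finset.mul_sum, ← hs, inv_mul_cancel₀ hpos.ne'])
  have e2 : ∀ n, ‖∑ i ∈ Finset.Icc (-L : ℤ) L, cf a (n - i) ((h ^ n) x) *
      ((((Real.sqrt s)⁻¹ : ℝ) : ℂ) * η i)‖ ^ 2 = s⁻¹ * ‖act a N x η n‖ ^ 2 := by
    intro n
    rw [act_eq_sum hN L x hη n]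
    have : ∑ i ∈ Finset.Icc (-L : ℤ) L, cf a (n - i) ((h ^ n) x) *
      ((((Real.sqrt s)⁻¹ : ℝ) : ℂ) * η i) = (((Real.sqrt s)⁻¹ : ℝ) : ℂ) *
        ∑ i ∈ Finset.Icc (-L : ℤ) L, cf a (n - i) ((h ^ n) x) * η i := by
      rw [Finset.mul_sum]
      exact Finset.sum_congr rfl fun i _ => by ring
    rw [this, norm_mul, mul_pow, Complex.norm_real, norm_inv, inv_pow, Real.norm_eq_abs, sq_abs,
      hss]
  simp only [e2] at key
  rw [← Finset.mul_sum] at key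
  obtain ⟨t, ht⟩ : ∃ t, t = ∑ n ∈ Finset.Icc (-(L + N : ℤ)) (L + N), ‖act a N x η n‖ ^ 2 :=
    ⟨_, rfl⟩
  rw [← ht] at key
  have hD : (0 : ℝ) < 4 * L + 2 * N + 1 := by positivity
  have hfin : ε₀ / (4 * L + 2 * N + 1) * s ≤ t := by
    rw [div_mul_eq_mul_div, div_le_iff₀ hD]
    have h1 : ε₀ * s ≤ (4 * L + 2 * N + 1) * (s⁻¹ * t) * s := by gcongr
    have h2 : (4 * L + 2 * N + 1) * (s⁻¹ * t) * s = t * (4 * L + 2 * N + 1) := by
      field_simp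
    linarith
  rw [hsq, ← ENNReal.ofReal_mul (by positivity)]
  refine (ENNReal.ofReal_le_ofReal hfin).trans ?_
  rw [ht, ENNReal.ofReal_sum_of_nonneg (fun _ _ => by positivity)]
  exact ENNReal.sum_le_tsum _

/-- The dichotomy: either `a` is uniformly bounded below on `ℓ²(ℤ)`, or it has good approximate
null vectors. -/
theorem dichotomy {a : TwConv h} {N : ℕ} (hN : Band a N) :
    (∃ c : ℝ, 0 < c ∧ ∀ (x : X) (ξ : lp (fun _ : ℤ => ℂ) 2), c * ‖ξ‖ ^ 2 ≤ ‖T h x a ξ‖ ^ 2) ∨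
    (∀ ε : ℝ, 0 < ε → ∃ (L : ℕ) (x₀ : X) (ξ : ℤ → ℂ),
      ∑ i ∈ Finset.Icc (-L : ℤ) L, ‖ξ i‖ ^ 2 = 1 ∧
      (4 * L + 2 * N + 1 : ℝ) * ∑ n ∈ Finset.Icc (-(L + N : ℤ)) (L + N),
        ‖∑ i ∈ Finset.Icc (-L : ℤ) L, cf a (n - i) ((h ^ n) x₀) * ξ i‖ ^ 2 < ε) := by
  rw [or_iff_not_imp_right]
  intro H
  push Not at H
  obtain ⟨ε₀, hε₀, H⟩ := H
  obtain ⟨A, hA⟩ : ∃ A, A = ∑ m ∈ Finset.Icc (-N : ℤ) N, ‖cf a m‖ := ⟨_, rfl⟩
  have hA0 : 0 ≤ A := by rw [hA]; positivity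
  -- choose the size of the window
  obtain ⟨l, hl1, hl2⟩ : ∃ l : ℕ, N + 1 ≤ l ∧ 60 * A ^ 2 * N ^ 2 < ε₀ * l := by
    obtain ⟨l₀, hl₀⟩ := exists_nat_gt (60 * A ^ 2 * N ^ 2 / ε₀)
    refine ⟨max (N + 1) l₀, le_max_left _ _, ?_⟩
    rw [div_lt_iff₀ hε₀] at hl₀
    have : (l₀ : ℝ) ≤ (max (N + 1) l₀ : ℕ) := by exact_mod_cast le_max_right _ _
    nlinarith
  have hl0 : (0 : ℝ) < l := by
    have : 0 < l := by omega
    exact_mod_cast this
  have hlN : (N : ℝ) + 1 ≤ l := by exact_mod_cast hl1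
  obtain ⟨κ, hκ⟩ : ∃ κ, κ = kap (2 * l) := ⟨_, rfl⟩
  have hκl : 2 * (l : ℝ) ^ 3 ≤ κ := hκ ▸ kap_ge l
  have hκ0 : 0 < κ := lt_of_lt_of_le (by positivity) hκl
  obtain ⟨c₀, hc₀⟩ : ∃ c₀ : ℝ, c₀ = ε₀ / (4 * ((2 * l : ℕ) : ℝ) + 2 * N + 1) := ⟨_, rfl⟩
  have hc₀pos : 0 < c₀ := by rw [hc₀]; positivity
  obtain ⟨D, hD⟩ : ∃ D : ℝ, D = 2 * A ^ 2 * ((2 * (((2 * l : ℕ) : ℝ) + N) + 1) * N ^ 2) := ⟨_, rfl⟩
  have hD0 : 0 ≤ D := by rw [hD]; positivity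
  have hmain : D < c₀ * κ := by
    have h1 : D ≤ 2 * A ^ 2 * ((6 * l) * N ^ 2) := by
      rw [hD]
      gcongr
      push_cast
      linarith
    have h2 : ε₀ / (10 * l) ≤ c₀ := by
      rw [hc₀]
      gcongr
      push_cast
      linarith
    have h3 : ε₀ / (10 * l) * (2 * (l : ℝ) ^ 3) ≤ c₀ * κ := by gcongr
    have h4 : ε₀ / (10 * l) * (2 * (l : ℝ) ^ 3) = ε₀ * l ^ 2 / 5 := by
      field_simp
      ring
    have h5 : 2 * A ^ 2 * ((6 * l) * N ^ 2) < ε₀ * l ^ 2 / 5 := by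
      have : (60 * A ^ 2 * N ^ 2) * l < (ε₀ * l) * l := by gcongr
      nlinarith
    linarith
  refine ⟨(c₀ * κ - D) / (2 * κ), div_pos (by linarith) (by positivity), ?_⟩
  intro x ξ
  have hwin : ∀ j, ENNReal.ofReal c₀ * sq (cut (2 * l) ξ j) ≤ sq (act a N x (cut (2 * l) ξ j)) := by
    intro j
    let η : ℤ → ℂ := fun k => cut (2 * l) ξ j (k + j)
    have hη : ∀ i, ((2 * l : ℕ) : ℤ) < |i| → η i = 0 := by
      intro i hi
      simp only [η, cut]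
      rw [add_sub_cancel_right, tent_zero_of hi.le]
      simp
    have hcut : cut (2 * l) ξ j = fun k => η (k - j) := by
      funext k
      simp only [η]
      rw [sub_add_cancel]
    have hw := window_bound hN hε₀ (L := 2 * l) (fun x₀ ξ hξ => H (2 * l) x₀ ξ hξ)
      ((h ^ j) x) hη
    rw [hcut, act_shift, sq_shift, sq_shift, hc₀]
    exact hw
  have hsum := (ENNReal.tsum_le_tsum hwin).trans (sq_act_cut_sum a N (2 * l) x ξ)
  rw [ENNReal.tsum_mul_left, sq_cut_sum, ← hA, ← hκ, ← hD, sq_lp] at hsum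
  have hact : sq (act a N x ξ) = ENNReal.ofReal (‖T h x a ξ‖ ^ 2) := by
    rw [← sq_lp]
    congr 1
    funext n
    exact (T_apply hN x ξ n).symm
  rw [hact, ← ENNReal.ofReal_mul (by positivity), ← ENNReal.ofReal_mul (by positivity),
    ← ENNReal.ofReal_mul (by positivity), ← ENNReal.ofReal_mul (by positivity),
    ← ENNReal.ofReal_add (by positivity) (by positivity),
    ENNReal.ofReal_le_ofReal_iff (by positivity)] at hsum
  rw [div_mul_eq_mul_div, div_le_iff₀ (by positivity)]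
  nlinarith

end Pool.Agent.W_MP_3ad462_an
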