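import Pool.Agent.W_MP_3ad462_an.Alg

open scoped ENNReal
open Topology

namespace Pool.Agent.W_MP_3ad462_an

variable {X : Type*} [TopologicalSpace X] {h : X ≃ₜ X}

/-- The dynamical hypotheses: no periodic points, and every forward and every backward orbit
visits every non-empty open set arbitrarily late. -/
structure GoodDyn (h : X ≃ₜ X) : Prop where
  free : ∀ (x : X) (n : ℤ), n ≠ 0 → (h ^ n) x ≠ x
  fwd : ∀ U : Set X, IsOpen U → U.Nonempty → ∀ (x : X) (K : ℤ), ∃ k ≥ K, (h ^ k) x ∈ U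
  bwd : ∀ U : Set X, IsOpen U → U.Nonempty → ∀ (x : X) (K : ℤ), ∃ k ≥ K, (h ^ (-k)) x ∈ U

theorem exists_disjoint_nhd [T2Space X] (hd : GoodDyn h) (x₀ : X) (K : ℕ) :
    ∃ W : Set X, IsOpen W ∧ x₀ ∈ W ∧ ∀ y ∈ W, ∀ m : ℤ, m ≠ 0 → |m| ≤ K → (h ^ m) y ∉ W := by
  have H : ∀ m : ℤ, ∃ W : Set X, IsOpen W ∧ x₀ ∈ W ∧ (m ≠ 0 → ∀ y ∈ W, (h ^ m) y ∉ W) := by
    intro m
    by_cases hm : m = 0
    · exact ⟨Set.univ, isOpen_univ, trivial, fun h => absurd hm h⟩
    · obtain ⟨A, B, hA, hB, hxA, hxB, hAB⟩ := t2_separation (hd.free x₀ m hm).symm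
      refine ⟨A ∩ (h ^ m) ⁻¹' B, hA.inter (hB.preimage (h ^ m).continuous), ⟨hxA, hxB⟩, ?_⟩
      intro _ y hy hy'
      exact Set.disjoint_left.mp hAB hy'.1 hy.2
  choose W hWo hWx hW using H
  refine ⟨⋂ m ∈ Finset.Icc (-K : ℤ) K, W m, isOpen_biInter_finset fun m _ => hWo m,
    Set.mem_iInter₂.mpr fun m _ => hWx m, ?_⟩
  intro y hy m hm hmK hy'
  have hmem : m ∈ Finset.Icc (-K : ℤ) K := by
    rw [Finset.mem_Icc]; exact abs_le.mp hmK
  exact hW m hm y (Set.mem_iInter₂.mp hy m hmem) (Set.mem_iInter₂.mp hy' m hmem)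

theorem exists_bump [CompactSpace X] [T2Space X] {x₀ : X} {W : Set X} (hW : IsOpen W)
    (hx : x₀ ∈ W) : ∃ (χ : C(X, ℂ)) (V : Set X), IsOpen V ∧ x₀ ∈ V ∧ V ⊆ W ∧
      (∀ y ∈ V, χ y = 1) ∧ (∀ y, y ∉ W → χ y = 0) ∧ ∀ y, ‖χ y‖ ≤ 1 := by
  obtain ⟨t, ht, htc, htW⟩ := exists_mem_nhds_isClosed_subset (hW.mem_nhds hx)
  obtain ⟨f, hf0, hf1, hf⟩ := exists_continuous_zero_one_of_isClosed hW.isClosed_compl htc
    (Set.disjoint_left.mpr fun y hy hyt => hy (htW hyt))
  refine ⟨⟨fun y => (f y : ℂ), by fun_prop⟩, interior t, isOpen_interior,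
    mem_interior_iff_mem_nhds.mpr ht, interior_subset.trans htW, ?_, ?_, ?_⟩
  · intro y hy
    have := hf1 (interior_subset hy)
    simp only [ContinuousMap.coe_mk]
    rw [this]; simp
  · intro y hy
    have := hf0 hy
    simp only [ContinuousMap.coe_mk]
    rw [this]; simp
  · intro y
    simp only [ContinuousMap.coe_mk, Complex.norm_real, Real.norm_eq_abs]
    rw [abs_of_nonneg (hf y).1]
    exact (hf y).2

/-- `b` is strictly triangular with steps in `{1, …, M}` -/
def Tri (b : TwConv h) (M : ℤ) : Prop := ∀ n, ¬ (1 ≤ n ∧ n ≤ M) → cf b n = 0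

theorem van_kappa {b : TwConv h} {κ : C(X, ℂ)} {x : X} (hx : κ x = 0) :
    Van (S h 0 κ * b) x := by
  intro n
  rw [cf_S_mul, hx, zero_mul]

theorem van_pow {b : TwConv h} {M : ℤ} (hb : Tri b M) (κ : C(X, ℂ)) (t : ℕ) :
    ∀ x : X, (∀ s : ℤ, t ≤ s → s ≤ t + M - 1 → κ ((h ^ (-s)) x) = 0) →
      Van ((S h 0 κ * b) ^ (t + 1)) x := by
  induction t using Nat.strong_induction_on with
  | _ t ih =>
    intro x hx
    rw [pow_succ']
    refine Van.mul_left fun m => ?_
    rw [cf_S_mul]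
    simp only [sub_zero, neg_zero, hpow_zero]
    by_cases hm : 1 ≤ m ∧ m ≤ M
    · by_cases hmt : m ≤ t
      · -- the window is still ahead
        right
        obtain ⟨k, rfl⟩ : ∃ k : ℕ, m = k := ⟨m.toNat, by omega⟩
        have hk : k ≤ t := by exact_mod_cast hmt
        have hk1 : 1 ≤ k := by exact_mod_cast hm.1
        have e : t = (t - k + 1) + (k - 1) := by omega
        rw [e, pow_add]
        refine Van.mul_right (ih (t - k) (by omega) _ ?_) _
        intro s hs1 hs2
        rw [← hpow_add]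
        have e2 : -s + -(k : ℤ) = -(s + k) := by ring
        rw [e2]
        apply hx
        · push_cast [Nat.cast_sub hk] at hs1; omega
        · push_cast [Nat.cast_sub hk] at hs2; omega
      · by_cases ht : t = 0
        · left
          subst ht
          have := hx 0 (by simp) (by push_cast; omega)
          simp only [neg_zero, hpow_zero] at this
          rw [this, zero_mul]
        · right
          obtain ⟨t', rfl⟩ : ∃ t', t = t' + 1 := ⟨t - 1, by omega⟩
          rw [pow_succ']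
          refine Van.mul_right (van_kappa ?_) _
          exact hx m (by omega) (by omega)
    · left
      rw [hb m hm]; simp

/-- If `κ` vanishes on `M` consecutive translates of a non-empty open set, then `κ b` is
nilpotent. -/
theorem isNilpotent_kappa [CompactSpace X] (hd : GoodDyn h) {b : TwConv h} {M : ℤ} (hb : Tri b M)
    (_hM : 1 ≤ M) {κ : C(X, ℂ)} {V : Set X} (hV : IsOpen V) (hVne : V.Nonempty)
    (hκ : ∀ y ∈ V, ∀ i : ℤ, 0 ≤ i → i < M → κ ((h ^ i) y) = 0) :
    IsNilpotent (S h 0 κ * b) := by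
  have hcov : ∀ x : X, ∃ t : ℕ, (h ^ (-(t + M - 1) : ℤ)) x ∈ V := by
    intro x
    obtain ⟨k, hk, hkx⟩ := hd.bwd V hV hVne x M
    refine ⟨(k - M + 1).toNat, ?_⟩
    have : (((k - M + 1).toNat : ℕ) : ℤ) = k - M + 1 := Int.toNat_of_nonneg (by omega)
    rw [this]
    have e : -(k - M + 1 + M - 1) = -k := by ring
    rw [e]; exact hkx
  obtain ⟨F, hF⟩ := isCompact_univ.elim_finite_subcover
    (fun t : ℕ => (h ^ (-(t + M - 1) : ℤ)) ⁻¹' V)
    (fun t => hV.preimage (h ^ (-(t + M - 1) : ℤ)).continuous)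
    (fun x _ => by
      obtain ⟨t, ht⟩ := hcov x
      exact Set.mem_iUnion.mpr ⟨t, ht⟩)
  refine ⟨F.sup id + 1, eq_zero_of_van fun x => ?_⟩
  obtain ⟨t, htF, ht⟩ : ∃ t ∈ F, (h ^ (-(t + M - 1) : ℤ)) x ∈ V := by
    have := hF (Set.mem_univ x)
    simpa using this
  have hle : t ≤ F.sup id := Finset.le_sup (f := id) htF
  have e : F.sup id + 1 = (t + 1) + (F.sup id - t) := by omega
  rw [e, pow_add]
  refine Van.mul_right (van_pow hb κ t x ?_) _
  intro s hs1 hs2
  have := hκ _ ht (t + M - 1 - s) (by omega) (by omega)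
  rw [← hpow_add] at this
  have e2 : t + M - 1 - s + -(t + M - 1) = -s := by ring
  rw [e2] at this
  exact this

theorem isNilpotent_add {R : Type*} [Ring R] {T κ : R} (hT : IsNilpotent T) (h1 : T * κ = 0)
    (h2 : κ * κ = 0) : IsNilpotent (T + κ) := by
  obtain ⟨m, hm⟩ := hT
  have key : ∀ m : ℕ, (T + κ) ^ (m + 1) = (T + κ) * T ^ m := by
    intro m
    induction m with
    | zero => simp
    | succ m ih =>
      rw [pow_succ', ih, ← mul_assoc, pow_succ', ← mul_assoc]
      congr 1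
      rw [mul_add (T + κ) T κ, add_mul T κ κ, h1, h2]
      simp
  exact ⟨m + 1, by rw [key, hm, mul_zero]⟩

theorem isUnit_scalar_add_nilpotent {a : TwConv h} (ha : IsNilpotent a) {c : ℂ} (hc : c ≠ 0) :
    IsUnit (S h 0 (ContinuousMap.const X c) + a) := by
  have e1 : ∀ c d : ℂ, S h 0 (ContinuousMap.const X c) * S h 0 (ContinuousMap.const X d) =
      S h 0 (ContinuousMap.const X (c * d)) := by
    intro c d
    rw [S_mul_S]; rfl
  have hcomm : ∀ c : ℂ, Commute (S h 0 (ContinuousMap.const X c)) a := by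
    intro c
    apply ext_cf
    intro n x
    rw [cf_S_mul, cf_mul_S]
    simp [mul_comm]
  have hu : IsUnit (S h 0 (ContinuousMap.const X c)) := by
    refine ⟨⟨S h 0 (ContinuousMap.const X c), S h 0 (ContinuousMap.const X c⁻¹), ?_, ?_⟩, rfl⟩
    · rw [e1, mul_inv_cancel₀ hc]; rfl
    · rw [e1, inv_mul_cancel₀ hc]; rfl
  exact ha.isUnit_add_left_of_commute hu (hcomm c).symm

theorem exists_times (hd : GoodDyn h) {U : Set X} (hU : IsOpen U) (hUne : U.Nonempty) (x : X)
    (M : ℤ) : ∃ k : ℕ → ℤ, StrictMono k ∧ (∀ i, M ≤ k i) ∧ ∀ i, (h ^ (k i)) x ∈ U := by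
  choose g hg hgU using hd.fwd U hU hUne x
  let k : ℕ → ℤ := fun i => Nat.rec (g M) (fun _ r => g (r + 1)) i
  have hk0 : k 0 = g M := rfl
  have hks : ∀ i, k (i + 1) = g (k i + 1) := fun i => rfl
  have hmono : StrictMono k := strictMono_nat_of_lt_succ fun i => by
    have := hg (k i + 1)
    rw [hks]; omega
  refine ⟨k, hmono, fun i => ?_, fun i => ?_⟩
  · have h1 : k 0 ≤ k i := hmono.monotone (Nat.zero_le i)
    have h2 := hg M
    omega
  · cases i with
    | zero => exact hgU M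
    | succ i => rw [hks]; exact hgU _

theorem appU_of_tri [CompactSpace X] [T2Space X] (hd : GoodDyn h) {b : TwConv h} {M : ℕ}
    (hM : 1 ≤ M) (hb : Tri b M) {U : Set X} (hU : IsOpen U) (hUne : U.Nonempty)
    (hR : ZR b U) (hC : ZC b U) : AppU b := by
  obtain ⟨x₂, -⟩ := id hUne
  obtain ⟨k, hk, hkM, hkU⟩ := exists_times hd hU hUne x₂ M
  -- a small neighbourhood of `x₂`
  obtain ⟨W₀, hW₀o, hW₀x, hW₀⟩ := exists_disjoint_nhd hd x₂ (k M).toNat
  have hkM0 : 0 ≤ k M := by have := hkM M; omega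
  obtain ⟨W, hWo, hWx, hWW₀, hWU⟩ : ∃ W : Set X, IsOpen W ∧ x₂ ∈ W ∧ W ⊆ W₀ ∧
      ∀ i < M, ∀ y ∈ W, (h ^ (k i)) y ∈ U := by
    refine ⟨W₀ ∩ ⋂ i ∈ Finset.range M, (h ^ (k i)) ⁻¹' U,
      hW₀o.inter (isOpen_biInter_finset fun i _ => hU.preimage (h ^ (k i)).continuous),
      ⟨hW₀x, Set.mem_iInter₂.mpr fun i _ => hkU i⟩, Set.inter_subset_left, ?_⟩
    intro i hi y hy
    exact Set.mem_iInter₂.mp hy.2 i (Finset.mem_range.mpr hi)
  obtain ⟨φ, V, hVo, hVx, hVW, hφ1, hφ0, -⟩ := exists_bump hWo hWx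
  have hφφ : ∀ m : ℤ, m ≠ 0 → |m| ≤ k M → ∀ x, φ x * φ ((h ^ (-m)) x) = 0 := by
    intro m hm hmk x
    by_cases hx : x ∈ W
    · have : (h ^ (-m)) x ∉ W := fun H =>
        hW₀ x (hWW₀ hx) (-m) (neg_ne_zero.mpr hm) (by rw [abs_neg, Int.toNat_of_nonneg hkM0]; exact hmk)
          (hWW₀ H)
      rw [hφ0 _ this, mul_zero]
    · rw [hφ0 _ hx, zero_mul]
  have hki : ∀ i < M, k i < k M := fun i hi => hk hi
  let P : ℕ → TwConv h := fun i => S h (k i) 1 - S h i 1
  let Q : ℕ → TwConv h := fun i => S h (-i) 1 + S h (-(k i)) 1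
  let n : TwConv h := ∑ i ∈ Finset.range M, P i * (S h 0 φ * Q i)
  -- `n` has square zero
  have hQP : ∀ i < M, ∀ j < M, S h 0 φ * (Q i * P j) * S h 0 φ = 0 := by
    intro i hi j hj
    have hkiM := hkM i
    have hkjM := hkM j
    have hki' := hki i hi
    have hkj' := hki j hj
    have e : Q i * P j = S h (-i + k j) 1 - S h (-i + j) 1 + (S h (-(k i) + k j) 1
        - S h (-(k i) + j) 1) := by
      have one1 : ∀ m : ℤ, (1 : C(X, ℂ)) * alphaPow h m 1 = 1 := by
        intro m; ext x; simp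
      simp only [P, Q, add_mul, mul_sub, S_mul_S, one1]
      abel
    have hcf : ∀ m x, cf (Q i * P j) m x = (if -i + k j = m then 1 else 0)
        - (if (-i + j : ℤ) = m then 1 else 0) + ((if -(k i) + k j = m then 1 else 0)
        - (if -(k i) + j = m then 1 else 0)) := by
      intro m x
      rw [e, cf_add, cf_sub, cf_sub, ContinuousMap.add_apply, ContinuousMap.sub_apply,
        ContinuousMap.sub_apply, cf_S, cf_S, cf_S, cf_S]
      rfl
    rw [sandwich]
    · have : cf (Q i * P j) 0 = 0 := by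
        ext x
        rw [hcf, if_neg (by omega), if_neg (c := -(k i) + j = 0) (by omega)]
        by_cases hij : i = j
        · subst hij
          simp
        · have h1 : k i ≠ k j := fun H => hij (hk.injective H)
          rw [if_neg (by omega), if_neg (by omega)]
          simp
      rw [this]; simp
    · intro m hm
      by_cases hmk : |m| ≤ k M
      · right; exact hφφ m hm hmk
      · left
        ext x
        rw [hcf, if_neg, if_neg, if_neg, if_neg]
        · simp
        all_goals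
          intro H
          apply hmk
          rw [abs_le]
          omega
  have hn : n * n = 0 := by
    simp only [n]
    rw [tw_sum_mul_sum]
    refine Finset.sum_eq_zero fun i hi => Finset.sum_eq_zero fun j hj => ?_
    have := hQP i (Finset.mem_range.mp hi) j (Finset.mem_range.mp hj)
    calc P i * (S h 0 φ * Q i) * (P j * (S h 0 φ * Q j))
        = P i * (S h 0 φ * (Q i * P j) * S h 0 φ) * Q j := by simp only [mul_assoc]
      _ = 0 := by rw [this]; simp
  -- the zero rows and zero columns of `b`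
  have hrow : ∀ i < M, S h 0 φ * (S h (-(k i)) 1 * b) = 0 := by
    intro i hi
    apply ext_cf
    intro m x
    rw [cf_S_mul, cf_S_mul]
    simp only [sub_zero, neg_zero, hpow_zero, neg_neg, cf_zero, ContinuousMap.zero_apply]
    by_cases hx : x ∈ W
    · rw [hR _ _ (hWU i hi x hx)]; simp
    · rw [hφ0 _ hx, zero_mul]
  have hcol : ∀ i < M, b * (S h (k i) 1 * S h 0 φ) = 0 := by
    intro i hi
    rw [← mul_assoc]
    apply ext_cf
    intro m x
    rw [cf_mul_S, cf_mul_S]
    simp only [sub_zero, cf_zero, ContinuousMap.zero_apply]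
    by_cases hx : (h ^ (-m)) x ∈ W
    · have := hWU i hi _ hx
      rw [← hpow_add] at this
      have e : -(m - k i) = k i + -m := by ring
      rw [hC (m - k i) x (by rw [e]; exact this)]; simp
    · rw [hφ0 _ hx, mul_zero]
  -- decomposition of `(1 + n) b`
  let κ' : TwConv h := ∑ i ∈ Finset.range M, S h (k i) 1 * S h 0 φ * (S h (-i) 1 * b)
  let κ : C(X, ℂ) := 1 - ∑ i ∈ Finset.range M, alphaPow h i φ
  have hdec : (1 + n) * b = S h 0 κ * b + κ' := by
    have h1 : n * b = κ' - ∑ i ∈ Finset.range M, S h 0 (alphaPow h i φ) * b := by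
      simp only [n, κ']
      rw [tw_sum_mul, ← Finset.sum_sub_distrib]
      refine Finset.sum_congr rfl fun i hi => ?_
      have hi' := Finset.mem_range.mp hi
      have e1 : S h 0 φ * Q i * b = S h 0 φ * (S h (-i) 1 * b) := by
        simp only [Q]
        rw [mul_assoc, add_mul, mul_add, hrow i hi', add_zero]
      have e2 : S h i 1 * S h 0 φ * (S h (-i) 1 * b) = S h 0 (alphaPow h i φ) * b := by
        rw [← mul_assoc, S_mul_S, S_mul_S]
        congr 1
        have : ((i : ℤ) + 0 + -i) = 0 := by ring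
        rw [this]
        congr 1
        ext x
        simp
      rw [mul_assoc, e1]
      simp only [P]
      rw [sub_mul, ← e2, mul_assoc, mul_assoc]
    have h2 : S h 0 κ = 1 - ∑ i ∈ Finset.range M, S h 0 (alphaPow h i φ) := by
      rw [← S_sum, ← S_zero_one]
      apply ext_cf
      intro m x
      rw [cf_sub, ContinuousMap.sub_apply, cf_S, cf_S, cf_S]
      by_cases hm : (0 : ℤ) = m
      · simp only [if_pos hm]
        simp [κ]
      · simp [if_neg hm]
    rw [add_mul, one_mul, h1, h2, sub_mul, one_mul, tw_sum_mul]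
    abel
  have hbκ : b * κ' = 0 := by
    simp only [κ']
    rw [tw_mul_sum]
    refine Finset.sum_eq_zero fun i hi => ?_
    rw [← mul_assoc, hcol i (Finset.mem_range.mp hi), zero_mul]
  have hκκ : κ' * κ' = 0 := by
    conv_lhs => enter [1]; simp only [κ']
    rw [tw_sum_mul]
    refine Finset.sum_eq_zero fun i _ => ?_
    rw [mul_assoc, mul_assoc (S h (-i) 1) b, hbκ, mul_zero, mul_zero]
  have hT : IsNilpotent (S h 0 κ * b) := by
    refine isNilpotent_kappa hd hb (by exact_mod_cast hM) hVo ⟨x₂, hVx⟩ ?_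
    intro y hy i hi0 hiM
    obtain ⟨j, rfl⟩ : ∃ j : ℕ, i = j := ⟨i.toNat, by omega⟩
    have hjM : j < M := by exact_mod_cast hiM
    simp only [κ, ContinuousMap.sub_apply, ContinuousMap.one_apply, ContinuousMap.sum_apply,
      alphaPow_apply]
    rw [Finset.sum_eq_single j]
    · rw [← hpow_add]
      have e : -(j : ℤ) + j = 0 := by ring
      rw [e, hpow_zero, hφ1 y hy, sub_self]
    · intro l hl hlj
      rw [← hpow_add]
      apply hφ0
      intro H
      have hl' := Finset.mem_range.mp hl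
      have hkMM := hkM M
      refine hW₀ y (hWW₀ (hVW hy)) (-(l : ℤ) + j) (by omega) ?_ (hWW₀ H)
      rw [Int.toNat_of_nonneg hkM0, abs_le]
      constructor <;> omega
    · intro H
      exact absurd (Finset.mem_range.mpr hjM) H
  have hnil : IsNilpotent ((1 + n) * b) := by
    rw [hdec]
    refine isNilpotent_add hT ?_ hκκ
    rw [mul_assoc, hbκ, mul_zero]
  have hunit : IsUnit (1 + n) := by
    refine ⟨⟨1 + n, 1 - n, ?_, ?_⟩, rfl⟩
    · rw [mul_sub, mul_one, add_mul, one_mul, hn]; abel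
    · rw [mul_add, mul_one, sub_mul, one_mul, hn]; abel
  refine AppU.unit_mul (w := 1 + n) ?_ hunit
  intro ε hε
  refine ⟨S h 0 (ContinuousMap.const X ((ε / 2 : ℝ) : ℂ)) + (1 + n) * b,
    isUnit_scalar_add_nilpotent hnil (by
      rw [Ne, Complex.ofReal_eq_zero]; positivity), ?_⟩
  have e : (1 + n) * b - (S h 0 (ContinuousMap.const X ((ε / 2 : ℝ) : ℂ)) + (1 + n) * b) =
      -S h 0 (ContinuousMap.const X ((ε / 2 : ℝ) : ℂ)) := by abel
  rw [e, ell1_neg, ell1_S]
  refine lt_of_le_of_lt ((ContinuousMap.norm_le _ (by positivity : (0 : ℝ) ≤ ε / 2)).mpr ?_)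
    (by linarith : ε / 2 < ε)
  intro x
  simp only [ContinuousMap.const_apply, Complex.norm_real, Real.norm_eq_abs]
  rw [abs_of_pos (by positivity)]

end Pool.Agent.W_MP_3ad462_an
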