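import Pool.Agent.W_MP_3ad462_an.Nilp

open scoped ENNReal
open Topology

namespace Pool.Agent.W_MP_3ad462_an

variable {X : Type*} [TopologicalSpace X] {h : X ≃ₜ X}

theorem isUnit_S (k : ℤ) : IsUnit (S h k 1) := by
  have one1 : ∀ m : ℤ, (1 : C(X, ℂ)) * alphaPow h m 1 = 1 := by
    intro m; ext x; simp
  refine ⟨⟨S h k 1, S h (-k) 1, ?_, ?_⟩, rfl⟩
  · rw [S_mul_S, one1, add_neg_cancel]; rfl
  · rw [S_mul_S, one1, neg_add_cancel]; rfl

theorem isUnit_one_add_of_sq {R : Type*} [Ring R] {n : R} (hn : n * n = 0) : IsUnit (1 + n) := by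
  refine ⟨⟨1 + n, 1 - n, ?_, ?_⟩, rfl⟩
  · rw [mul_sub, mul_one, add_mul, one_mul, hn]; abel
  · rw [mul_add, mul_one, sub_mul, one_mul, hn]; abel

/-- Zero rows over one open set and zero columns over another one suffice. -/
theorem appU_of_zr_zc [CompactSpace X] [T2Space X] (hd : GoodDyn h) {a : TwConv h}
    {U V : Set X} (hU : IsOpen U) (hUne : U.Nonempty) (hV : IsOpen V) (hVne : V.Nonempty)
    (hR : ZR a U) (hC : ZC a V) : AppU a := by
  obtain ⟨N, hN⟩ := exists_band a
  obtain ⟨y, hy⟩ := hUne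
  obtain ⟨k, hk, hkV⟩ := hd.fwd V hV hVne y (N + 1)
  have hk0 : (N : ℤ) + 1 ≤ k := hk
  refine AppU.mul_unit (w := S h k 1) ?_ (isUnit_S k)
  have hcf : ∀ n x, cf (a * S h k 1) n x = cf a (n - k) x := by
    intro n x
    rw [cf_mul_S]; simp
  refine appU_of_tri hd (M := (k + N).toNat) (by omega) ?_ (U := U ∩ (h ^ k) ⁻¹' V)
    (hU.inter (hV.preimage (h ^ k).continuous)) ⟨y, hy, hkV⟩ ?_ ?_
  · intro n hn
    ext x
    rw [hcf, hN _ (by rw [lt_abs]; omega)]
  · intro n x hx
    rw [hcf]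
    exact hR _ _ hx.1
  · intro n x hx
    rw [hcf]
    apply hC
    have := hx.2
    simp only [Set.mem_preimage] at this
    rw [← hpow_add] at this
    have e : -(n - k) = k + -n := by ring
    rw [e]
    exact this

/-- Dimension count: an element with zero columns over a non-empty open set is annihilated from
the left, at some point, by an element with constant coefficients. -/
theorem exists_left_null [Nonempty X] (hd : GoodDyn h) {a : TwConv h}
    {V : Set X} (hV : IsOpen V) (hVne : V.Nonempty) (hC : ZC a V) :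
    ∃ (z : TwConv h) (m : ℕ) (y : X), Band z m ∧ cf z 0 = 1 ∧ Van (z * a) y := by
  classical
  obtain ⟨N, hN⟩ := exists_band a
  obtain ⟨x₁⟩ := ‹Nonempty X›
  obtain ⟨k, hk, hk0, hkV⟩ := exists_times hd hV hVne x₁ 0
  obtain ⟨m, hm⟩ : ∃ m : ℕ, k (2 * N) = m := ⟨(k (2 * N)).toNat, by
    rw [Int.toNat_of_nonneg (hk0 _)]⟩
  -- the bad set of equations
  let B : Finset ℤ := (Finset.range (2 * N + 1)).image fun i => -(k i)
  have hBcard : B.card = 2 * N + 1 := by
    rw [Finset.card_image_of_injective (Finset.range (2 * N + 1)) (f := fun i => -(k i))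
      (fun i j hij => hk.injective (neg_injective hij)), Finset.card_range]
  have hBsub : B ⊆ Finset.Icc (-(m + N : ℤ)) N := by
    intro n hn
    obtain ⟨i, hi, rfl⟩ := Finset.mem_image.mp hn
    have h1 : k i ≤ k (2 * N) := hk.monotone (by have := Finset.mem_range.mp hi; omega)
    have h2 := hk0 i
    rw [Finset.mem_Icc]; omega
  let E : Finset ℤ := Finset.Icc (-(m + N : ℤ)) N \ B
  have hEcard : E.card = m := by
    rw [Finset.card_sdiff_of_subset hBsub, hBcard, Int.card_Icc]; omega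
  let L : (Fin (m + 1) → ℂ) →ₗ[ℂ] (E → ℂ) :=
    { toFun := fun ζ n => ∑ i : Fin (m + 1), ζ i * cf a (n + i) ((h ^ (i : ℤ)) x₁)
      map_add' := fun ζ η => by
        ext n; simp [add_mul, Finset.sum_add_distrib]
      map_smul' := fun c ζ => by
        ext n; simp [mul_assoc, Finset.mul_sum] }
  have hker : LinearMap.ker L ≠ ⊥ := by
    apply LinearMap.ker_ne_bot_of_finrank_lt
    simp [hEcard]
  obtain ⟨ζ, hζ, hζ0⟩ := Submodule.exists_mem_ne_zero_of_ne_bot hker
  obtain ⟨i₁, hi₁⟩ : ∃ i, ζ i ≠ 0 := by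
    by_contra H
    push Not at H
    exact hζ0 (funext H)
  have hall : ∀ n : ℤ, ∑ i : Fin (m + 1), ζ i * cf a (n + i) ((h ^ (i : ℤ)) x₁) = 0 := by
    intro n
    by_cases hnI : n ∈ Finset.Icc (-(m + N : ℤ)) N
    · by_cases hnB : n ∈ B
      · refine Finset.sum_eq_zero fun i _ => ?_
        obtain ⟨j, hj, rfl⟩ := Finset.mem_image.mp hnB
        rw [hC, mul_zero]
        rw [← hpow_add]
        have e : -(-(k j) + (i : ℤ)) + i = k j := by ring
        rw [e]
        exact hkV j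
      · have hnE : n ∈ E := Finset.mem_sdiff.mpr ⟨hnI, hnB⟩
        exact congrFun (LinearMap.mem_ker.mp hζ) ⟨n, hnE⟩
    · refine Finset.sum_eq_zero fun i _ => ?_
      rw [hN, ContinuousMap.zero_apply, mul_zero]
      rw [Finset.mem_Icc] at hnI
      have := i.isLt
      rw [lt_abs]
      omega
  let z : TwConv h := ∑ i : Fin (m + 1), S h (i₁ - i) (ContinuousMap.const X (ζ i / ζ i₁))
  have hz : ∀ n x, cf z n x = ∑ i : Fin (m + 1), if (i₁ - i : ℤ) = n then ζ i / ζ i₁ else 0 := by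
    intro n x
    simp only [z]
    rw [cf_sum, ContinuousMap.sum_apply]
    simp only [cf_S, ContinuousMap.const_apply]
  refine ⟨z, m, (h ^ (i₁ : ℤ)) x₁, ?_, ?_, ?_⟩
  · intro n hn
    ext x
    rw [hz]
    refine Finset.sum_eq_zero fun i _ => ?_
    rw [if_neg]
    intro H
    have h1 := i.isLt
    have h2 := i₁.isLt
    rw [lt_abs] at hn
    omega
  · ext x
    rw [hz, Finset.sum_eq_single i₁]
    · simp [hi₁]
    · intro i _ hi
      rw [if_neg]
      intro H
      apply hi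
      ext
      omega
    · intro H
      exact absurd (Finset.mem_univ _) H
  · intro n
    simp only [z]
    rw [tw_sum_mul, cf_sum, ContinuousMap.sum_apply]
    have : ∀ i : Fin (m + 1), cf (S h (i₁ - i) (ContinuousMap.const X (ζ i / ζ i₁)) * a) n
        ((h ^ (i₁ : ℤ)) x₁) = (ζ i₁)⁻¹ * (ζ i * cf a ((n - i₁) + i) ((h ^ (i : ℤ)) x₁)) := by
      intro i
      rw [cf_S_mul, ← hpow_add]
      have e1 : n - (i₁ - i : ℤ) = (n - i₁) + i := by ring
      have e2 : -((i₁ : ℤ) - i) + i₁ = i := by ring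
      rw [e1, e2, ContinuousMap.const_apply]
      ring
    simp only [this]
    rw [← Finset.mul_sum, hall, mul_zero]

/-- An element with zero columns over a non-empty open set is a limit of units. -/
theorem appU_of_zc [Nonempty X] [CompactSpace X] [T2Space X] (hd : GoodDyn h) {a : TwConv h}
    {V : Set X} (hV : IsOpen V) (hVne : V.Nonempty) (hC : ZC a V) : AppU a := by
  obtain ⟨z, m, y, hzB, hz0, hzy⟩ := exists_left_null hd hV hVne hC
  obtain ⟨N, hN⟩ := exists_band (z * a)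
  refine AppU.closed fun ε hε => ?_
  obtain ⟨δ, hδ, hδε⟩ : ∃ δ > 0, (2 * N + 1 : ℝ) * δ < ε :=
    ⟨ε / (2 * N + 2), by positivity, by
      rw [mul_div_assoc', div_lt_iff₀ (by positivity)]
      nlinarith⟩
  -- a neighbourhood of `y` on which `z a` is small
  obtain ⟨W₀, hW₀o, hW₀y, hW₀⟩ := exists_disjoint_nhd hd y m
  obtain ⟨W, hWo, hWy, hWW₀, hWs⟩ : ∃ W : Set X, IsOpen W ∧ y ∈ W ∧ W ⊆ W₀ ∧
      ∀ n, ∀ x ∈ W, ‖cf (z * a) n x‖ ≤ δ := by
    refine ⟨W₀ ∩ ⋂ n ∈ Finset.Icc (-N : ℤ) N, {x | ‖cf (z * a) n x‖ < δ},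
      hW₀o.inter (isOpen_biInter_finset fun n _ => isOpen_lt (by fun_prop) continuous_const),
      ⟨hW₀y, Set.mem_iInter₂.mpr fun n _ => by
        change ‖cf (z * a) n y‖ < δ; rw [hzy n, norm_zero]; exact hδ⟩, Set.inter_subset_left, ?_⟩
    intro n x hx
    by_cases hn : n ∈ Finset.Icc (-N : ℤ) N
    · exact (Set.mem_iInter₂.mp hx.2 n hn).le
    · rw [hN n (by rw [Finset.mem_Icc] at hn; rw [lt_abs]; omega)]
      simpa using hδ.le
  obtain ⟨χ, V₁, hV₁o, hV₁y, hV₁W, hχ1, hχ0, hχn⟩ := exists_bump hWo hWy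
  obtain ⟨φ, V₂, hV₂o, hV₂y, hV₂V₁, hφ1, hφ0, -⟩ := exists_bump hV₁o hV₁y
  have hW₀' : ∀ x ∈ W₀, ∀ l : ℤ, l ≠ 0 → |l| ≤ m → (h ^ (-l)) x ∉ W₀ := by
    intro x hx l hl hlm
    exact hW₀ x hx (-l) (neg_ne_zero.mpr hl) (by rwa [abs_neg])
  -- the perturbed element
  let a₂ : TwConv h := a - S h 0 χ * (z * a)
  have hsmall : ell1 (a - a₂) < ε := by
    have e : a - a₂ = S h 0 χ * (z * a) := by simp only [a₂]; abel
    have hB : Band (S h 0 χ * (z * a)) N := by
      intro n hn
      ext x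
      rw [cf_S_mul, sub_zero, hN n hn]; simp
    rw [e, ell1_eq hB]
    refine lt_of_le_of_lt (Finset.sum_le_card_nsmul _ _ δ fun n _ => ?_) ?_
    · rw [ContinuousMap.norm_le _ hδ.le]
      intro x
      rw [cf_S_mul, sub_zero, neg_zero, hpow_zero, norm_mul]
      by_cases hx : x ∈ W
      · calc ‖χ x‖ * ‖cf (z * a) n x‖ ≤ 1 * δ :=
              mul_le_mul (hχn x) (hWs n x hx) (norm_nonneg _) zero_le_one
          _ = δ := one_mul δ
      · rw [hχ0 x hx, norm_zero, zero_mul]; exact hδ.le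
    · rw [Int.card_Icc, nsmul_eq_mul]
      have : (((N : ℤ) + 1 - -N).toNat : ℝ) = 2 * N + 1 := by
        have h2 : ((N : ℤ) + 1 - -N).toNat = 2 * N + 1 := by omega
        rw [h2]; push_cast; ring
      rw [this]
      exact hδε
  refine ⟨a₂, ?_, hsmall⟩
  -- a unipotent row operation
  have hs1 : S h 0 φ * z * S h 0 χ = S h 0 φ := by
    rw [sandwich]
    · congr 1
      ext x
      rw [hz0]
      simp only [ContinuousMap.mul_apply, mul_one]
      by_cases hx : x ∈ V₁
      · rw [hχ1 x hx, mul_one]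
      · rw [hφ0 x hx, zero_mul]
    · intro l hl
      by_cases hlm : |l| ≤ m
      · right
        intro x
        by_cases hx : x ∈ V₁
        · rw [hχ0 _ (fun H => hW₀' x (hWW₀ (hV₁W hx)) l hl hlm (hWW₀ H)), mul_zero]
        · rw [hφ0 x hx, zero_mul]
      · left
        exact hzB l (by omega)
  have hnull : S h 0 φ * z * a₂ = 0 := by
    simp only [a₂]
    rw [mul_sub, ← mul_assoc (S h 0 φ * z) (S h 0 χ), hs1, mul_assoc, sub_self]
  let ν : TwConv h := S h 0 φ * (z - 1)
  have hs2 : S h 0 φ * (z - 1) * S h 0 φ = 0 := by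
    rw [sandwich]
    · have : cf (z - 1) 0 = 0 := by
        rw [cf_sub, hz0]
        ext x
        rw [ContinuousMap.sub_apply, cf_one]
        simp
      rw [this]; simp
    · intro l hl
      by_cases hlm : |l| ≤ m
      · right
        intro x
        by_cases hx : x ∈ V₁
        · rw [hφ0 _ (fun H => hW₀' x (hWW₀ (hV₁W hx)) l hl hlm (hWW₀ (hV₁W H))), mul_zero]
        · rw [hφ0 x hx, zero_mul]
      · left
        rw [cf_sub, hzB l (by omega)]
        ext x
        rw [ContinuousMap.sub_apply, cf_one, if_neg (Ne.symm hl)]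
        simp
  have hν : ν * ν = 0 := by
    simp only [ν]
    rw [← mul_assoc, hs2, zero_mul]
  refine AppU.unit_mul (w := 1 + ν) ?_ (isUnit_one_add_of_sq hν)
  refine appU_of_zr_zc hd hV₂o ⟨y, hV₂y⟩ hV hVne ?_ ?_
  · intro n x hx
    have e : (1 + ν) * a₂ = a₂ - S h 0 φ * a₂ + S h 0 φ * z * a₂ := by
      have hνe : ν = S h 0 φ * z - S h 0 φ := by simp only [ν]; rw [mul_sub, mul_one]
      rw [hνe, add_mul, one_mul, sub_mul]
      abel
    rw [e, hnull, add_zero, cf_sub, ContinuousMap.sub_apply, cf_S_mul]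
    simp [hφ1 x hx]
  · apply ZC.mul_left
    simp only [a₂]
    intro n x hx
    have h1 : cf (S h 0 χ * (z * a)) n x = 0 := (hC.mul_left z).mul_left (S h 0 χ) n x hx
    rw [cf_sub, ContinuousMap.sub_apply, hC n x hx, h1, sub_zero]

/-- If the columns of `a v` vanish over a non-empty open set, where `v` has constant term `1`,
then `a` is a limit of units. -/
theorem appU_of_null [Nonempty X] [CompactSpace X] [T2Space X] (hd : GoodDyn h) {a v : TwConv h}
    {V : Set X} (hV : IsOpen V) (hVne : V.Nonempty) (hv : cf v 0 = 1) (hC : ZC (a * v) V) :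
    AppU a := by
  obtain ⟨m, hm⟩ := exists_band v
  obtain ⟨y, hy⟩ := hVne
  obtain ⟨W₀, hW₀o, hW₀y, hW₀⟩ := exists_disjoint_nhd hd y m
  obtain ⟨φ, V₁, hV₁o, hV₁y, hV₁W, hφ1, hφ0, -⟩ := exists_bump (hV.inter hW₀o) ⟨hy, hW₀y⟩
  let ν : TwConv h := (v - 1) * S h 0 φ
  have hs : S h 0 φ * (v - 1) * S h 0 φ = 0 := by
    rw [sandwich]
    · have : cf (v - 1) 0 = 0 := by
        rw [cf_sub, hv]
        ext x
        rw [ContinuousMap.sub_apply, cf_one]
        simp
      rw [this]; simp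
    · intro l hl
      by_cases hlm : |l| ≤ m
      · right
        intro x
        by_cases hx : x ∈ V ∩ W₀
        · rw [hφ0 _ (fun H => hW₀ x hx.2 (-l) (neg_ne_zero.mpr hl) (by rwa [abs_neg]) H.2),
            mul_zero]
        · rw [hφ0 x hx, zero_mul]
      · left
        rw [cf_sub, hm l (by omega)]
        ext x
        rw [ContinuousMap.sub_apply, cf_one, if_neg (Ne.symm hl)]
        simp
  have hν : ν * ν = 0 := by
    simp only [ν]
    rw [mul_assoc, ← mul_assoc (S h 0 φ), hs, mul_zero]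
  refine AppU.mul_unit (w := 1 + ν) ?_ (isUnit_one_add_of_sq hν)
  refine appU_of_zc hd hV₁o ⟨y, hV₁y⟩ ?_
  intro n x hx
  have e : a * (1 + ν) = a - a * S h 0 φ + a * v * S h 0 φ := by
    simp only [ν]
    rw [mul_add, mul_one, ← mul_assoc, mul_sub, mul_one, sub_mul]
    abel
  rw [e, cf_add, cf_sub, ContinuousMap.add_apply, ContinuousMap.sub_apply, cf_mul_S, cf_mul_S]
  simp only [sub_zero]
  rw [hφ1 _ hx, hC n x (hV₁W hx).1]
  simp

end Pool.Agent.W_MP_3ad462_an
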