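import Pool.Agent.W_MP_3ad462_an.Alg

open scoped ENNReal
open MeasureTheory

namespace Pool.Agent.W_MP_3ad462_an

variable {X : Type*} [TopologicalSpace X] [CompactSpace X] {h : X ≃ₜ X}

/-- Explicit formula for the integrated form. -/
theorem integrated_apply {E : Type*} [NormedAddCommGroup E] [NormedSpace ℂ E] (π : Rep X E)
    (h : X ≃ₜ X) (p : ℝ≥0∞) [Fact (1 ≤ p)] {a : TwConv h} {N : ℕ} (hN : Band a N)
    (ξ : Ell p E) (n : ℤ) :
    ((π.integrated h p a).app ξ).entry n =
      ∑ m ∈ Finset.Icc (-N : ℤ) N, π.toHom (alphaPow h (-n) (cf a m)) (ξ.entry (n - m)) := by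
  have hS : ∀ (m : ℤ) (f : C(X, ℂ)), ((π.integrated h p (S h m f)).app ξ).entry n =
      π.toHom (alphaPow h (-n) f) (ξ.entry (n - m)) := by
    intro m f
    unfold Rep.integrated S
    rw [SkewMonoidAlgebra.sum_single_index]
    · rfl
    · change π.tildeHom h p 0 * _ = 0
      rw [map_zero, zero_mul]
  have hadd : ∀ A B : Op p E, ((A + B).app ξ).entry n = (A.app ξ).entry n + (B.app ξ).entry n :=
    fun _ _ => rfl
  have hzero : ((0 : Op p E).app ξ).entry n = 0 := rfl
  have hsum : ∀ s : Finset ℤ, ((π.integrated h p (∑ m ∈ s, S h m (cf a m))).app ξ).entry n =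
      ∑ m ∈ s, π.toHom (alphaPow h (-n) (cf a m)) (ξ.entry (n - m)) := by
    classical
    intro s
    induction s using Finset.induction_on with
    | empty =>
      rw [Finset.sum_empty, Finset.sum_empty, ← π.integratedHom_apply, map_zero, hzero]
    | insert i s hi ih =>
      rw [Finset.sum_insert hi, Finset.sum_insert hi, ← ih, ← hS, ← π.integratedHom_apply,
        map_add, hadd, π.integratedHom_apply, π.integratedHom_apply]
  conv_lhs => rw [eq_sum_S hN]
  exact hsum _

/-- Evaluation at `x` as a representation on any Banach space. -/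
noncomputable def evRepE (E : Type*) [NormedAddCommGroup E] [NormedSpace ℂ E] (x : X) :
    Rep X E where
  toHom := (Algebra.ofId ℂ (E →L[ℂ] E)).comp (ContinuousMap.evalAlgHom ℂ ℂ x)
  contractive f := by
    change ‖algebraMap ℂ (E →L[ℂ] E) (f x)‖ ≤ ‖f‖
    refine ContinuousLinearMap.opNorm_le_bound _ (norm_nonneg _) fun v => ?_
    rw [ContinuousLinearMap.algebraMap_apply, norm_smul]
    gcongr
    exact f.norm_coe_le_norm x

/-- The reduced norm restricts to the supremum norm on `C(X)`. -/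
theorem rnorm_S_zero (p : ℝ≥0∞) [Fact (1 ≤ p)] (h : X ≃ₜ X) (f : C(X, ℂ)) :
    rnorm p h (S h 0 f) = ‖f‖ := by
  apply le_antisymm
  · refine rnorm_le p h _ (norm_nonneg f) fun ρ => ?_
    have := ρ.π.norm_integrated_le h p (S h 0 f)
    rwa [ell1_S] at this
  · rw [ContinuousMap.norm_le _ (rnorm_nonneg p h _)]
    intro x
    let μ : Measure Unit := Measure.dirac ()
    let ρ : LpRep p X := { Ω := Unit, μ := μ, π := evRepE (Lp ℂ p μ) x }
    refine le_trans ?_ (le_rnorm p h (S h 0 f) ρ)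
    have hp0 : p ≠ 0 := (zero_lt_one.trans_le Fact.out).ne'
    let v : Lp ℂ p μ := indicatorConstLp p (s := Set.univ) MeasurableSet.univ (by simp [μ]) 1
    have hv : ‖v‖ = 1 := by
      by_cases hp : p = ∞
      · subst hp
        simp only [v]
        rw [Lp.norm_def]
        rw [eLpNorm_congr_ae indicatorConstLp_coeFn]
        simp [μ]
      · simp only [v]
        rw [norm_indicatorConstLp hp0 hp]
        simp [μ]
    let ξ : lp (fun _ : ℤ => Lp ℂ p μ) p := lp.single p 0 v
    have hξ : ‖ξ‖ = 1 := by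
      simp only [ξ]
      rw [lp.norm_single (pos_iff_ne_zero.mpr hp0), hv]
    let ζ : Ell p (Lp ℂ p μ) := ξ
    have hζ : ‖ζ‖ = 1 := hξ
    have h1 : ((ρ.π.integrated h p (S h 0 f)).app ζ).entry 0 = f x • v := by
      unfold Rep.integrated S
      rw [SkewMonoidAlgebra.sum_single_index]
      · change (evRepE (Lp ℂ p μ) x).toHom (alphaPow h (-0) f) (ξ (0 - 0)) = f x • v
        have : alphaPow h (-0) f = f := by ext y; simp
        rw [this]
        simp only [ξ, sub_zero]
        rw [lp.single_apply_self]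
        change algebraMap ℂ (Lp ℂ p μ →L[ℂ] Lp ℂ p μ) (f x) v = f x • v
        rw [ContinuousLinearMap.algebraMap_apply]
      · change ρ.π.tildeHom h p 0 * _ = 0
        rw [map_zero, zero_mul]
    have h2 : ∀ η : Ell p (Lp ℂ p μ), ‖η.entry 0‖ ≤ ‖η‖ := fun η =>
      lp.norm_apply_le_norm hp0 (show lp (fun _ : ℤ => Lp ℂ p μ) p from η) 0
    have h3 : ∀ (A : Op p (Lp ℂ p μ)) (η : Ell p (Lp ℂ p μ)), ‖A.app η‖ ≤ ‖A‖ * ‖η‖ :=
      fun A η => ContinuousLinearMap.le_opNorm (show Ell p (Lp ℂ p μ) →L[ℂ] _ from A) η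
    calc ‖f x‖ = ‖((ρ.π.integrated h p (S h 0 f)).app ζ).entry 0‖ := by
          rw [h1, norm_smul, hv, mul_one]
      _ ≤ ‖(ρ.π.integrated h p (S h 0 f)).app ζ‖ := h2 _
      _ ≤ ‖ρ.π.integrated h p (S h 0 f)‖ * ‖ζ‖ := h3 _ _
      _ = ‖ρ.π.integrated h p (S h 0 f)‖ := by rw [hζ, mul_one]

end Pool.Agent.W_MP_3ad462_an
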