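import Pool.Agent.W_MP_3ad462_an.Alg

open scoped ENNReal NNReal
open Topology

namespace Pool.Agent.W_MP_3ad462_an

/-- the tent function of height `L`, with integer values -/
def tent (L : ℕ) (k : ℤ) : ℤ := max 0 (L - |k|)

theorem tent_zero_of {L : ℕ} {k : ℤ} (hk : (L : ℤ) ≤ |k|) : tent L k = 0 := by
  unfold tent; omega

theorem tent_lip (L : ℕ) (k m : ℤ) : |tent L (k - m) - tent L k| ≤ |m| := by
  unfold tent
  have h1 := abs_sub_abs_le_abs_sub (k - m) k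
  have h2 := abs_sub_abs_le_abs_sub k (k - m)
  have e1 : k - m - k = -m := by ring
  have e2 : k - (k - m) = m := by ring
  rw [e1, abs_neg] at h1
  rw [e2] at h2
  rw [abs_le]
  have h3 := abs_nonneg m
  constructor <;> omega

/-- the square of the `ℓ²` norm, as an extended non-negative real -/
noncomputable def sq (f : ℤ → ℂ) : ℝ≥0∞ := ∑' k, ENNReal.ofReal (‖f k‖ ^ 2)

theorem sq_shift (f : ℤ → ℂ) (m : ℤ) : sq (fun k => f (k - m)) = sq f :=
  (Equiv.subRight m).tsum_eq (fun k => ENNReal.ofReal (‖f k‖ ^ 2))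

/-- sum of the squares of the tent -/
noncomputable def kap (L : ℕ) : ℝ := ∑ k ∈ Finset.Icc (-L : ℤ) L, ((tent L k : ℤ) : ℝ) ^ 2

theorem tsum_tent (L : ℕ) (n : ℤ) :
    ∑' j : ℤ, ENNReal.ofReal (((tent L (n - j) : ℤ) : ℝ) ^ 2) = ENNReal.ofReal (kap L) := by
  refine ((Equiv.subLeft n).tsum_eq
    (fun j => ENNReal.ofReal (((tent L j : ℤ) : ℝ) ^ 2))).trans ?_
  rw [tsum_eq_sum (s := Finset.Icc (-L : ℤ) L), kap, ENNReal.ofReal_sum_of_nonneg]
  · intro i _; positivity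
  · intro k hk
    rw [tent_zero_of]
    · simp
    · rw [Finset.mem_Icc] at hk; rw [le_abs]; omega

theorem tsum_tent_diff (L N : ℕ) (n m : ℤ) (hm : |m| ≤ N) :
    ∑' j : ℤ, ENNReal.ofReal (((tent L (n - j - m) - tent L (n - j) : ℤ) : ℝ) ^ 2) ≤
      ENNReal.ofReal ((2 * (L + N) + 1) * N ^ 2) := by
  refine ((Equiv.subLeft n).tsum_eq
      (fun j => ENNReal.ofReal (((tent L (j - m) - tent L j : ℤ) : ℝ) ^ 2))).trans_le ?_
  rw [tsum_eq_sum (s := Finset.Icc (-(L + N : ℤ)) (L + N)), ← ENNReal.ofReal_sum_of_nonneg]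
  · apply ENNReal.ofReal_le_ofReal
    refine (Finset.sum_le_card_nsmul _ _ ((N : ℝ) ^ 2) fun j _ => ?_).trans ?_
    · rw [sq_le_sq, ← Int.cast_abs]
      have h1 := (tent_lip L j m).trans hm
      rw [abs_of_nonneg (by positivity : (0 : ℝ) ≤ N)]
      exact_mod_cast h1
    · rw [Int.card_Icc, nsmul_eq_mul]
      have : ((L + N : ℤ) + 1 - -(L + N : ℤ)).toNat = 2 * (L + N) + 1 := by omega
      rw [this]; push_cast; rfl
  · intro i _; positivity
  · intro k hk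
    rw [Finset.mem_Icc] at hk
    rw [tent_zero_of (k := k), tent_zero_of (k := k - m)]
    · simp
    · rw [le_abs]; rw [abs_le] at hm; omega
    · rw [le_abs]; omega

section Op

variable {X : Type*} [TopologicalSpace X] {h : X ≃ₜ X}

/-- The action of `a` on functions on `ℤ` at the base point `x`. -/
noncomputable def act (a : TwConv h) (N : ℕ) (x : X) (ξ : ℤ → ℂ) : ℤ → ℂ := fun n =>
  ∑ m ∈ Finset.Icc (-N : ℤ) N, cf a m ((h ^ n) x) * ξ (n - m)

theorem act_shift (a : TwConv h) (N : ℕ) (x : X) (ξ : ℤ → ℂ) (j : ℤ) :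
    act a N x (fun k => ξ (k - j)) = fun n => act a N ((h ^ j) x) ξ (n - j) := by
  funext n
  unfold act
  refine Finset.sum_congr rfl fun m _ => ?_
  have e : n - m - j = n - j - m := by ring
  rw [← hpow_add, sub_add_cancel]
  change _ * ξ (n - m - j) = _
  rw [e]

/-- cut-off by the tent centred at `j` -/
noncomputable def cut (L : ℕ) (ξ : ℤ → ℂ) (j : ℤ) : ℤ → ℂ := fun k =>
  ((tent L (k - j) : ℤ) : ℂ) * ξ k

theorem sq_cut_sum (L : ℕ) (ξ : ℤ → ℂ) :
    ∑' j, sq (cut L ξ j) = ENNReal.ofReal (kap L) * sq ξ := by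
  unfold sq cut
  rw [ENNReal.tsum_comm, ← ENNReal.tsum_mul_left]
  refine tsum_congr fun k => ?_
  rw [← tsum_tent L k, ← ENNReal.tsum_mul_right]
  refine tsum_congr fun j => ?_
  rw [← ENNReal.ofReal_mul (by positivity), norm_mul, mul_pow, ← Complex.ofReal_intCast,
    Complex.norm_real, Real.norm_eq_abs, sq_abs]

theorem act_cut_bound [CompactSpace X] (a : TwConv h) (N L : ℕ) (x : X) (ξ : ℤ → ℂ) (j n : ℤ) :
    ‖act a N x (cut L ξ j) n‖ ^ 2 ≤ 2 * (((tent L (n - j) : ℤ) : ℝ) ^ 2 * ‖act a N x ξ n‖ ^ 2) +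
      2 * ((∑ m ∈ Finset.Icc (-N : ℤ) N, ‖cf a m‖) * ∑ m ∈ Finset.Icc (-N : ℤ) N, ‖cf a m‖ *
        (((tent L (n - j - m) - tent L (n - j) : ℤ) : ℝ) ^ 2 * ‖ξ (n - m)‖ ^ 2)) := by
  have e : act a N x (cut L ξ j) n = ((tent L (n - j) : ℤ) : ℂ) * act a N x ξ n +
      ∑ m ∈ Finset.Icc (-N : ℤ) N, cf a m ((h ^ n) x) *
        (((tent L (n - j - m) - tent L (n - j) : ℤ) : ℂ) * ξ (n - m)) := by
    unfold act cut
    rw [Finset.mul_sum, ← Finset.sum_add_distrib]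
    refine Finset.sum_congr rfl fun m _ => ?_
    have e1 : n - m - j = n - j - m := by ring
    rw [e1]
    push_cast
    ring
  have hsum : ‖∑ m ∈ Finset.Icc (-N : ℤ) N, cf a m ((h ^ n) x) *
        (((tent L (n - j - m) - tent L (n - j) : ℤ) : ℂ) * ξ (n - m))‖ ^ 2 ≤
      (∑ m ∈ Finset.Icc (-N : ℤ) N, ‖cf a m‖) * ∑ m ∈ Finset.Icc (-N : ℤ) N, ‖cf a m‖ *
        (((tent L (n - j - m) - tent L (n - j) : ℤ) : ℝ) ^ 2 * ‖ξ (n - m)‖ ^ 2) := by
    have h1 : ‖∑ m ∈ Finset.Icc (-N : ℤ) N, cf a m ((h ^ n) x) *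
        (((tent L (n - j - m) - tent L (n - j) : ℤ) : ℂ) * ξ (n - m))‖ ≤
        ∑ m ∈ Finset.Icc (-N : ℤ) N, ‖cf a m‖ *
        (|((tent L (n - j - m) - tent L (n - j) : ℤ) : ℝ)| * ‖ξ (n - m)‖) := by
      refine (norm_sum_le _ _).trans (Finset.sum_le_sum fun m _ => ?_)
      rw [norm_mul, norm_mul, ← Complex.ofReal_intCast, Complex.norm_real, Real.norm_eq_abs]
      gcongr
      exact (cf a m).norm_coe_le_norm _
    refine (pow_le_pow_left₀ (norm_nonneg _) h1 2).trans ?_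
    apply Finset.sum_sq_le_sum_mul_sum_of_sq_le_mul
    · intro m _; positivity
    · intro m _; positivity
    · intro m _
      rw [mul_pow, mul_pow, sq_abs]
      exact le_of_eq (by ring)
  rw [e]
  have h2 : ∀ u v : ℂ, ‖u + v‖ ^ 2 ≤ 2 * ‖u‖ ^ 2 + 2 * ‖v‖ ^ 2 := by
    intro u v
    have := norm_add_le u v
    nlinarith [norm_nonneg u, norm_nonneg v, norm_nonneg (u + v), sq_nonneg (‖u‖ - ‖v‖)]
  refine (h2 _ _).trans ?_
  rw [norm_mul, mul_pow, ← Complex.ofReal_intCast, Complex.norm_real, Real.norm_eq_abs, sq_abs]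
  gcongr

theorem sq_act_cut_sum [CompactSpace X] (a : TwConv h) (N L : ℕ) (x : X) (ξ : ℤ → ℂ) :
    ∑' j, sq (act a N x (cut L ξ j)) ≤
      ENNReal.ofReal (2 * kap L) * sq (act a N x ξ) +
      ENNReal.ofReal (2 * (∑ m ∈ Finset.Icc (-N : ℤ) N, ‖cf a m‖) ^ 2 *
        ((2 * (L + N) + 1) * N ^ 2)) * sq ξ := by
  obtain ⟨A, hA⟩ : ∃ A, A = ∑ m ∈ Finset.Icc (-N : ℤ) N, ‖cf a m‖ := ⟨_, rfl⟩
  have hA0 : 0 ≤ A := by rw [hA]; positivity
  rw [← hA]
  have hpt : ∀ j n, ENNReal.ofReal (‖act a N x (cut L ξ j) n‖ ^ 2) ≤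
      ENNReal.ofReal 2 * (ENNReal.ofReal (((tent L (n - j) : ℤ) : ℝ) ^ 2) *
        ENNReal.ofReal (‖act a N x ξ n‖ ^ 2)) +
      ∑ m ∈ Finset.Icc (-N : ℤ) N, ENNReal.ofReal (2 * A * ‖cf a m‖) *
        (ENNReal.ofReal (((tent L (n - j - m) - tent L (n - j) : ℤ) : ℝ) ^ 2) *
          ENNReal.ofReal (‖ξ (n - m)‖ ^ 2)) := by
    intro j n
    refine (ENNReal.ofReal_le_ofReal (act_cut_bound a N L x ξ j n)).trans ?_
    rw [ENNReal.ofReal_add (by positivity) (by positivity), ENNReal.ofReal_mul (by positivity),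
      ENNReal.ofReal_mul (by positivity), ← hA, ← mul_assoc 2 A, Finset.mul_sum,
      ENNReal.ofReal_sum_of_nonneg (fun i _ => by positivity)]
    refine add_le_add le_rfl (Finset.sum_le_sum fun m _ => ?_)
    rw [← mul_assoc, ENNReal.ofReal_mul (by positivity)]
    exact le_of_eq (congrArg _ (ENNReal.ofReal_mul (by positivity)))
  calc ∑' j, sq (act a N x (cut L ξ j))
      ≤ ∑' j, ∑' n, (ENNReal.ofReal 2 * (ENNReal.ofReal (((tent L (n - j) : ℤ) : ℝ) ^ 2) *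
        ENNReal.ofReal (‖act a N x ξ n‖ ^ 2)) +
      ∑ m ∈ Finset.Icc (-N : ℤ) N, ENNReal.ofReal (2 * A * ‖cf a m‖) *
        (ENNReal.ofReal (((tent L (n - j - m) - tent L (n - j) : ℤ) : ℝ) ^ 2) *
          ENNReal.ofReal (‖ξ (n - m)‖ ^ 2))) :=
        ENNReal.tsum_le_tsum fun j => ENNReal.tsum_le_tsum fun n => hpt j n
    _ = ENNReal.ofReal 2 * (∑' n, (∑' j, ENNReal.ofReal (((tent L (n - j) : ℤ) : ℝ) ^ 2)) *
          ENNReal.ofReal (‖act a N x ξ n‖ ^ 2)) +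
        ∑ m ∈ Finset.Icc (-N : ℤ) N, ENNReal.ofReal (2 * A * ‖cf a m‖) *
          ∑' n, (∑' j, ENNReal.ofReal (((tent L (n - j - m) - tent L (n - j) : ℤ) : ℝ) ^ 2)) *
          ENNReal.ofReal (‖ξ (n - m)‖ ^ 2) := by
        rw [ENNReal.tsum_comm]
        simp only [← ENNReal.tsum_mul_right, ENNReal.tsum_add, ENNReal.tsum_mul_left]
        congr 1
        have : ∀ n, ∑' j, ∑ m ∈ Finset.Icc (-N : ℤ) N, ENNReal.ofReal (2 * A * ‖cf a m‖) *
            (ENNReal.ofReal (((tent L (n - j - m) - tent L (n - j) : ℤ) : ℝ) ^ 2) *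
              ENNReal.ofReal (‖ξ (n - m)‖ ^ 2)) =
            ∑ m ∈ Finset.Icc (-N : ℤ) N, ENNReal.ofReal (2 * A * ‖cf a m‖) * ∑' j,
            (ENNReal.ofReal (((tent L (n - j - m) - tent L (n - j) : ℤ) : ℝ) ^ 2) *
              ENNReal.ofReal (‖ξ (n - m)‖ ^ 2)) := by
          intro n
          rw [Summable.tsum_finsetSum (fun _ _ => ENNReal.summable)]
          simp only [ENNReal.tsum_mul_left]
        simp only [this]
        rw [Summable.tsum_finsetSum (fun _ _ => ENNReal.summable)]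
        simp only [ENNReal.tsum_mul_left]
    _ ≤ ENNReal.ofReal 2 * (∑' n, ENNReal.ofReal (kap L) * ENNReal.ofReal (‖act a N x ξ n‖ ^ 2)) +
        ∑ m ∈ Finset.Icc (-N : ℤ) N, ENNReal.ofReal (2 * A * ‖cf a m‖) *
          ∑' n, ENNReal.ofReal ((2 * (L + N) + 1) * N ^ 2) *
          ENNReal.ofReal (‖ξ (n - m)‖ ^ 2) := by
        gcongr with n m hm n
        · exact le_of_eq (tsum_tent L n)
        · rw [Finset.mem_Icc] at hm
          exact tsum_tent_diff L N n m (by rw [abs_le]; omega)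
    _ = _ := by
        simp only [ENNReal.tsum_mul_left]
        have hsh : ∀ m, ∑' n, ENNReal.ofReal (‖ξ (n - m)‖ ^ 2) = sq ξ := fun m => sq_shift ξ m
        simp only [hsh]
        rw [← mul_assoc, ← ENNReal.ofReal_mul (by positivity)]
        congr 1
        rw [← Finset.sum_mul, ← mul_assoc, ← ENNReal.ofReal_sum_of_nonneg
          (fun i _ => by positivity), ← Finset.mul_sum, ← hA,
          ← ENNReal.ofReal_mul (by positivity)]
        congr 2
        ring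

end Op

end Pool.Agent.W_MP_3ad462_an
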